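import Mathlib

set_option autoImplicit false

namespace Pool.Agent.L0h85.NullC

open Real

lemma abs_log_sub_log_le {x y A : ℝ} (hA : 0 < A) (hx : A ≤ x) (hy : A ≤ y) :
    |log x - log y| ≤ |x - y| / A := by
  have key : ∀ x y : ℝ, A ≤ x → A ≤ y → x ≤ y → |log x - log y| ≤ |x - y| / A := by
    intro x y hx hy hxy
    have hx0 : 0 < x := lt_of_lt_of_le hA hx
    have hy0 : 0 < y := lt_of_lt_of_le hA hy
    have h1 : log x ≤ log y := Real.log_le_log hx0 hxy
    rw [abs_of_nonpos (by linarith), abs_of_nonpos (by linarith)]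
    have h2 : log y - log x = log (y / x) := (Real.log_div hy0.ne' hx0.ne').symm
    have h3 : log (y / x) ≤ y / x - 1 := Real.log_le_sub_one_of_pos (by positivity)
    have h4 : y / x - 1 = (y - x) / x := by field_simp
    have h5 : (y - x) / x ≤ (y - x) / A := by
      apply div_le_div_of_nonneg_left (by linarith) hA hx
    have h6 : -(log x - log y) = log y - log x := by ring
    have h7 : -(x - y) = y - x := by ring
    rw [h6, h7, h2]
    linarith
  rcases le_total x y with h | h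
  · exact key x y hx hy h
  · have := key y x hy hx h
    rwa [abs_sub_comm, abs_sub_comm y x] at this

lemma abs_cos_log_sub_le {x y A : ℝ} (hA : 0 < A) (hx : A ≤ x) (hy : A ≤ y) :
    |cos (log x) - cos (log y)| ≤ |x - y| / A := by
  refine le_trans ?_ (abs_log_sub_log_le hA hx hy)
  have := Real.lipschitzWith_cos.dist_le_mul (log x) (log y)
  simpa [Real.dist_eq] using this

variable {E : Type*} [NormedAddCommGroup E] [InnerProductSpace ℝ E]

/-- the three signs -/
def sgn : Fin 3 → ℝ := ![0, 1, -1]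

/-- a short signed combination of the vectors `v i` -/
noncomputable def comb {ι : Type*} (η : ℝ) (v : ι → E) {K : ℕ} (c : Fin K → ι × Fin 3) : E :=
  ∑ t, (η * sgn (c t).2) • v (c t).1

lemma perceptron {ι : Type*} [Nonempty ι] (v : ι → E) {R η τ κ : ℝ} (hη : 0 < η)
    (hR : ∀ i, ‖v i‖ ^ 2 ≤ R) (hτ : 0 ≤ τ) (hstep : κ ≤ 2 * η * τ - η ^ 2 * R) :
    ∀ (K : ℕ) (u : E), ‖u‖ ^ 2 ≤ K * κ →
      ∃ c : Fin K → ι × Fin 3, ∀ i, |inner ℝ (u - comb η v c) (v i)| ≤ τ := by
  intro K
  induction K with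
  | zero =>
    intro u hu
    have h0 : u = 0 := by
      have : ‖u‖ ^ 2 ≤ 0 := by simpa using hu
      have h : ‖u‖ = 0 := by nlinarith [norm_nonneg u]
      exact norm_eq_zero.mp h
    refine ⟨fun t => Fin.elim0 t, fun i => ?_⟩
    simp [comb, h0, hτ]
  | succ K ih =>
    intro u hu
    by_cases hall : ∀ i, |inner ℝ u (v i)| ≤ τ
    · obtain ⟨i0⟩ := (inferInstance : Nonempty ι)
      refine ⟨fun _ => (i0, 0), fun i => ?_⟩
      have : comb η v (fun _ : Fin (K+1) => (i0, (0 : Fin 3))) = 0 := by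
        simp [comb, sgn]
      rw [this, sub_zero]
      exact hall i
    · push Not at hall
      obtain ⟨i, hi⟩ := hall
      -- choose the sign
      have hsg : ∃ s : Fin 3, sgn s * inner ℝ u (v i) = |inner ℝ u (v i)| ∧ sgn s ^ 2 = 1 := by
        rcases le_total 0 (inner ℝ u (v i)) with h | h
        · exact ⟨1, by simp [sgn, abs_of_nonneg h], by simp [sgn]⟩
        · exact ⟨2, by simp [sgn, abs_of_nonpos h], by simp [sgn]⟩
      obtain ⟨s, hs1, hs2⟩ := hsg
      have hn : ‖u - (η * sgn s) • v i‖ ^ 2 ≤ K * κ := by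
        rw [norm_sub_sq_real, inner_smul_right, norm_smul, mul_pow]
        have e1 : ‖η * sgn s‖ ^ 2 = η ^ 2 := by
          rw [Real.norm_eq_abs, sq_abs, mul_pow, hs2, mul_one]
        rw [e1]
        have e2 : 2 * (η * sgn s * inner ℝ u (v i)) = 2 * η * |inner ℝ u (v i)| := by
          rw [← hs1]; ring
        rw [e2]
        have h3 : η ^ 2 * ‖v i‖ ^ 2 ≤ η ^ 2 * R := by
          apply mul_le_mul_of_nonneg_left (hR i) (by positivity)
        have h4 : 2 * η * τ ≤ 2 * η * |inner ℝ u (v i)| := by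
          apply mul_le_mul_of_nonneg_left hi.le (by positivity)
        push_cast at hu
        nlinarith
      obtain ⟨c, hc⟩ := ih _ hn
      refine ⟨Fin.cons (i, s) c, fun i' => ?_⟩
      have : u - comb η v (Fin.cons (i, s) c : Fin (K+1) → ι × Fin 3)
          = u - (η * sgn s) • v i - comb η v c := by
        simp only [comb, Fin.sum_univ_succ, Fin.cons_zero, Fin.cons_succ]
        abel
      rw [this]
      exact hc i'

/-- the type of codes -/
abbrev Code (ι : Type) (T K : ℕ) : Type := Bool × ι × ι × Fin T × (Fin K → ι × Fin 3)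

/-- quantisation -/
lemma exists_quant (x h : ℝ) (T : ℕ) (hx : 0 ≤ x) (hh : 0 < h) (hT : x / h < T) :
    ∃ k : Fin T, |x - (k : ℕ) * h| ≤ h := by
  have hk : ⌊x / h⌋₊ < T := (Nat.floor_lt (by positivity)).mpr hT
  refine ⟨⟨⌊x / h⌋₊, hk⟩, ?_⟩
  have h1 : (⌊x / h⌋₊ : ℝ) ≤ x / h := Nat.floor_le (by positivity)
  have h2 : x / h < ⌊x / h⌋₊ + 1 := Nat.lt_floor_add_one _
  have h3 : (⌊x / h⌋₊ : ℝ) * h ≤ x := by rwa [le_div_iff₀ hh] at h1
  have h4 : x < (⌊x / h⌋₊ + 1) * h := by rwa [div_lt_iff₀ hh] at h2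
  rw [abs_le]
  constructor <;> simp only <;> nlinarith

/-- far points -/
lemma far_bound {g A s d : ℝ} (hg : 0 < g) (hg' : g ≤ 1 / 6) (hA : 1 ≤ A) (hs : 0 ≤ s) (hd : 0 ≤ d)
    (hsd : |s - d| ≤ √(A - 1)) (hfar : A / g ^ 2 ≤ d ^ 2) :
    |cos (log (1 + s ^ 2)) - cos (log (1 + d ^ 2))| ≤ 10 * g := by
  have h1 : A ≤ g ^ 2 * d ^ 2 := by
    rw [div_le_iff₀ (by positivity)] at hfar
    linarith
  have h2 : √(A - 1) ≤ g * d := by
    rw [← Real.sqrt_sq (mul_nonneg hg.le hd)]
    apply Real.sqrt_le_sqrt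
    nlinarith
  have h3 : |s - d| ≤ g * d := hsd.trans h2
  rw [abs_le] at h3
  obtain ⟨h3a, h3b⟩ := h3
  have hdp : 0 < d := by
    rcases hd.eq_or_lt with h | h
    · rw [← h] at h1; nlinarith
    · exact h
  have hs1 : (5/6) * d ≤ s := by nlinarith
  have hs2 : s ≤ (7/6) * d := by nlinarith
  have hmin : 0 < d ^ 2 / 2 := by positivity
  have ha : d ^ 2 / 2 ≤ 1 + s ^ 2 := by nlinarith
  have hb : d ^ 2 / 2 ≤ 1 + d ^ 2 := by nlinarith
  refine (abs_cos_log_sub_le hmin ha hb).trans ?_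
  rw [div_le_iff₀ hmin]
  have e : 1 + s ^ 2 - (1 + d ^ 2) = (s - d) * (s + d) := by ring
  rw [e, abs_mul]
  have h4 : |s + d| ≤ (13/6) * d := by
    rw [abs_of_nonneg (by positivity)]; linarith
  have h5 : |s - d| ≤ g * d := hsd.trans h2
  calc |s - d| * |s + d| ≤ (g * d) * ((13/6) * d) := by
        apply mul_le_mul h5 h4 (abs_nonneg _) (by positivity)
    _ ≤ 10 * g * (d ^ 2 / 2) := by nlinarith [mul_pos hg (mul_pos hdp hdp)]

/-- near points -/
lemma near_bound {g A s t d : ℝ} (hg : 0 < g) (hg' : g ≤ 1 / 6) (hA : 1 ≤ A) (hd : 0 ≤ d)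
    (ht : 0 ≤ t) (hAt : A = 1 + t ^ 2) (hts : t ≤ s)
    (hsd : |s - t| ≤ d) (hnear : d ^ 2 ≤ g ^ 2 * A) :
    |cos (log (1 + s ^ 2)) - cos (log (1 + t ^ 2))| ≤ 4 * g := by
  have hA0 : 0 < A := by linarith
  have h1 : d ≤ g * √A := by
    have : √(d ^ 2) ≤ √(g ^ 2 * A) := Real.sqrt_le_sqrt hnear
    rw [Real.sqrt_sq hd, Real.sqrt_mul (by positivity), Real.sqrt_sq hg.le] at this
    exact this
  have hsA : √A ^ 2 = A := Real.sq_sqrt hA0.le
  have htA : t ≤ √A := by
    apply Real.le_sqrt_of_sq_le; rw [hAt]; linarith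
  have hsq : 0 < √A := Real.sqrt_pos.mpr hA0
  refine (abs_cos_log_sub_le hA0 (by nlinarith) (by linarith)).trans ?_
  rw [div_le_iff₀ hA0]
  have e : 1 + s ^ 2 - (1 + t ^ 2) = (s - t) * (s + t) := by ring
  rw [e, abs_mul]
  have h3 : |s - t| ≤ g * √A := hsd.trans h1
  have h4 : |s + t| ≤ 4 * √A := by
    rw [abs_of_nonneg (by linarith)]
    have := (abs_le.mp h3).2
    nlinarith
  calc |s - t| * |s + t| ≤ (g * √A) * (4 * √A) := by
        apply mul_le_mul h3 h4 (abs_nonneg _) (by positivity)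
    _ = 4 * g * (√A ^ 2) := by ring
    _ = 4 * g * A := by rw [hsA]

lemma cover (g : ℝ) (hg : 0 < g) (hg' : g ≤ 1 / 6) : ∃ T K : ℕ, ∀ (ι : Type) [Fintype ι]
    [Nonempty ι] (v : ι → E), ∃ z : Code ι T K → ι → ℝ, ∀ u : E, ∃ w, ∀ i,
      |cos (log (1 + ‖u - v i‖ ^ 2)) - z w i| ≤ 10 * g := by
  classical
  obtain ⟨T, hT⟩ := exists_nat_gt (2 / g + 1 / g ^ 5)
  obtain ⟨K, hK⟩ := exists_nat_ge (1 / g ^ 12)
  refine ⟨T, K, ?_⟩
  intro ι _ _ v
  -- centres
  let D : ι → ι → ℝ := fun r i => ‖v i - v r‖ ^ 2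
  let S : ι → ι → ℝ := fun r j => D r j / g ^ 2
  let v' : ι → ι → ι → E := fun r j i => if D r i < S r j / g ^ 2 then v i - v r else 0
  let z : Code ι T K → ι → ℝ := fun w i =>
    if w.1 = true then
      (if D w.2.1 i ≤ D w.2.1 w.2.2.1 then -1 + ((w.2.2.2.1 : ℕ) : ℝ) * g
        else cos (log (1 + D w.2.1 i)))
    else
      (if D w.2.1 i < S w.2.1 w.2.2.1 / g ^ 2 then
        cos (log (1 + (((w.2.2.2.1 : ℕ) : ℝ) * (g ^ 5 * S w.2.1 w.2.2.1) + D w.2.1 i
          - 2 * inner ℝ (comb (g ^ 7) (v' w.2.1 w.2.2.1) w.2.2.2.2) (v' w.2.1 w.2.2.1 i))))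
        else cos (log (1 + D w.2.1 i)))
  refine ⟨z, fun u => ?_⟩
  obtain ⟨r, hr⟩ := Finite.exists_min (fun i => ‖u - v i‖)
  set A : ℝ := 1 + ‖u - v r‖ ^ 2 with hAdef
  have hA1 : 1 ≤ A := by rw [hAdef]; nlinarith [sq_nonneg ‖u - v r‖]
  have hA0 : 0 < A := by linarith
  have hsqA : √(A - 1) = ‖u - v r‖ := by
    rw [hAdef]; simp [Real.sqrt_sq (norm_nonneg _)]
  have htri : ∀ i, |‖u - v i‖ - ‖v i - v r‖| ≤ ‖u - v r‖ := by
    intro i
    have h1 := abs_norm_sub_norm_le (u - v i) (v r - v i)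
    have e : u - v i - (v r - v i) = u - v r := by abel
    rw [e, norm_sub_rev (v r) (v i)] at h1
    exact h1
  have htri2 : ∀ i, |‖u - v i‖ - ‖u - v r‖| ≤ ‖v i - v r‖ := by
    intro i
    have h1 := abs_norm_sub_norm_le (u - v i) (u - v r)
    have e : u - v i - (u - v r) = -(v i - v r) := by abel
    rw [e, norm_neg] at h1
    exact h1
  -- far points
  have hfar : ∀ i, A / g ^ 2 ≤ D r i →
      |cos (log (1 + ‖u - v i‖ ^ 2)) - cos (log (1 + D r i))| ≤ 10 * g := by
    intro i hi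
    exact far_bound hg hg' hA1 (norm_nonneg _) (norm_nonneg _) (by rw [hsqA]; exact htri i) hi
  have hnear : ∀ i, D r i ≤ g ^ 2 * A →
      |cos (log (1 + ‖u - v i‖ ^ 2)) - cos (log (1 + ‖u - v r‖ ^ 2))| ≤ 4 * g := by
    intro i hi
    exact near_bound hg hg' hA1 (norm_nonneg _) (norm_nonneg _) hAdef (hr i) (htri2 i) hi
  by_cases hcase : ∀ i, D r i ≤ g ^ 2 * A ∨ A / g ^ 2 ≤ D r i
  · -- case 1
    -- choose the near index with maximal distance
    have hne : (Finset.univ.filter (fun i => D r i ≤ g ^ 2 * A)).Nonempty := by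
      refine ⟨r, ?_⟩
      simp only [Finset.mem_filter, Finset.mem_univ, true_and, D]
      simp
      positivity
    obtain ⟨j, hj, hjmax⟩ := Finset.exists_max_image _ (D r) hne
    simp only [Finset.mem_filter, Finset.mem_univ, true_and] at hj hjmax
    have hc1 : -1 ≤ cos (log (1 + ‖u - v r‖ ^ 2)) := Real.neg_one_le_cos _
    have hc2 : cos (log (1 + ‖u - v r‖ ^ 2)) ≤ 1 := Real.cos_le_one _
    obtain ⟨k, hk⟩ := exists_quant (cos (log (1 + ‖u - v r‖ ^ 2)) + 1) g T (by linarith) hg (by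
      refine lt_of_le_of_lt ?_ hT
      have : (cos (log (1 + ‖u - v r‖ ^ 2)) + 1) / g ≤ 2 / g := by
        apply div_le_div_of_nonneg_right _ hg.le
        linarith
      have h5 : 0 < 1 / g ^ 5 := by positivity
      linarith)
    refine ⟨(true, r, j, k, fun _ => (r, 0)), fun i => ?_⟩
    simp only [z, if_true]
    split_ifs with h
    · have h1 := hnear i (h.trans hj)
      have : cos (log (1 + ‖u - v i‖ ^ 2)) - (-1 + ((k : ℕ) : ℝ) * g)
        = (cos (log (1 + ‖u - v i‖ ^ 2)) - cos (log (1 + ‖u - v r‖ ^ 2)))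
          + (cos (log (1 + ‖u - v r‖ ^ 2)) + 1 - ((k : ℕ) : ℝ) * g) := by ring
      rw [this]
      refine (abs_add_le _ _).trans ?_
      linarith
    · rcases hcase i with h1 | h1
      · exact absurd (hjmax i h1) h
      · exact hfar i h1
  · -- case 2
    push Not at hcase
    obtain ⟨j, hj1, hj2⟩ := hcase
    have hDj : 0 < D r j := lt_of_le_of_lt (by positivity) hj1
    set s : ℝ := S r j with hs
    have hsD : s * g ^ 2 = D r j := by
      rw [hs]; simp only [S]; field_simp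
    have hsA : A < s := by
      have : g ^ 2 * A < s * g ^ 2 := by rw [hsD]; exact hj1
      nlinarith [pow_pos hg 2]
    have hsA2 : s * g ^ 4 < A := by
      have h1 : D r j * g ^ 2 < A := by rwa [lt_div_iff₀ (by positivity)] at hj2
      rw [← hsD] at h1
      nlinarith
    have hs0 : 0 < s := by linarith
    have hB : ‖u - v r‖ ^ 2 ≤ s := by linarith
    have hτ : g ^ 5 * s ≤ g * A := by nlinarith
    obtain ⟨k, hk⟩ := exists_quant (‖u - v r‖ ^ 2) (g ^ 5 * s) T (by positivity) (by positivity) (by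
      refine lt_of_le_of_lt ?_ hT
      have h1 : ‖u - v r‖ ^ 2 / (g ^ 5 * s) ≤ 1 / g ^ 5 := by
        rw [div_le_div_iff₀ (by positivity) (by positivity)]
        nlinarith [pow_pos hg 5]
      have h5 : 0 < 2 / g := by positivity
      linarith)
    have hv' : ∀ i, ‖v' r j i‖ ^ 2 ≤ s / g ^ 2 := by
      intro i
      simp only [v']
      split_ifs with h
      · exact h.le
      · simp; positivity
    obtain ⟨c, hc⟩ := perceptron (v' r j) (R := s / g ^ 2) (η := g ^ 7) (τ := g ^ 5 * s)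
      (κ := g ^ 12 * s) (by positivity) hv' (by positivity) (by
        have : (g ^ 7) ^ 2 * (s / g ^ 2) = g ^ 12 * s := by field_simp
        rw [this]; apply le_of_eq; ring) K (u - v r) (by
        have h1 : 1 ≤ K * g ^ 12 := by
          rw [div_le_iff₀ (by positivity)] at hK
          exact hK
        calc ‖u - v r‖ ^ 2 ≤ 1 * s := by linarith
          _ ≤ (K * g ^ 12) * s := by apply mul_le_mul_of_nonneg_right h1 hs0.le
          _ = K * (g ^ 12 * s) := by ring)
    refine ⟨(false, r, j, k, c), fun i => ?_⟩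
    simp only [z, Bool.false_eq_true, if_false]
    rw [← hs]
    split_ifs with h
    · have hv'i : v' r j i = v i - v r := by
        simp only [v']; rw [if_pos (by rw [← hs]; exact h)]
      have hci := hc i
      have hexp : ‖u - v i‖ ^ 2 = ‖u - v r‖ ^ 2 + D r i - 2 * inner ℝ (u - v r) (v i - v r) := by
        have e : u - v i = (u - v r) - (v i - v r) := by abel
        rw [e, norm_sub_sq_real]; simp only [D]; ring
      have hin : inner ℝ (u - v r) (v i - v r) = inner ℝ (u - v r - comb (g ^ 7) (v' r j) c) (v' r j i)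
          + inner ℝ (comb (g ^ 7) (v' r j) c) (v' r j i) := by
        rw [← inner_add_left, hv'i]; congr 1; abel
      set b : ℝ := ((k : ℕ) : ℝ) * (g ^ 5 * s) + D r i
          - 2 * inner ℝ (comb (g ^ 7) (v' r j) c) (v' r j i) with hb
      have hdiff : |‖u - v i‖ ^ 2 - b| ≤ 3 * (g * A) := by
        have e : ‖u - v i‖ ^ 2 - b = (‖u - v r‖ ^ 2 - ((k : ℕ) : ℝ) * (g ^ 5 * s))
          - 2 * inner ℝ (u - v r - comb (g ^ 7) (v' r j) c) (v' r j i) := by
          rw [hexp, hin, hb]; ring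
        rw [e]
        refine (abs_sub _ _).trans ?_
        rw [abs_mul, abs_two]
        linarith
      have hri : A ≤ 1 + ‖u - v i‖ ^ 2 := by
        have := hr i
        have h0 := norm_nonneg (u - v r)
        rw [hAdef]; nlinarith
      have hgA : g * A ≤ A / 6 := by nlinarith
      have hbl := abs_le.mp hdiff
      have hmin : 0 < A / 2 := by positivity
      refine (abs_cos_log_sub_le hmin (by linarith) (by linarith)).trans ?_
      rw [div_le_iff₀ hmin]
      have e2 : 1 + ‖u - v i‖ ^ 2 - (1 + b) = ‖u - v i‖ ^ 2 - b := by ring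
      rw [e2]
      nlinarith [mul_pos hg hA0]
    · push Not at h
      apply hfar i
      refine le_trans ?_ h
      apply div_le_div_of_nonneg_right hsA.le (by positivity)

end Pool.Agent.L0h85.NullC
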