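import Mathlib

set_option autoImplicit false

namespace Pool.Agent.L0h85.NullC

open Real Filter Topology

/-- weights -/
noncomputable def cw (l : ℕ) : ℝ := exp (π * (l : ℝ) ^ 2) / 2

/-- periods -/
def Np (l : ℕ) : ℕ := 2 ^ (4 * l ^ 3)

noncomputable def tm (l : ℕ) (m : ℤ) : ℝ := cw l * (1 - cos (2 * π * m / Np l))

lemma cw_pos (l : ℕ) : 0 < cw l := by unfold cw; positivity

lemma Np_pos (l : ℕ) : 0 < Np l := by unfold Np; positivity

lemma Np_posR (l : ℕ) : (0 : ℝ) < Np l := by exact_mod_cast Np_pos l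

lemma tm_nonneg (l : ℕ) (m : ℤ) : 0 ≤ tm l m := by
  unfold tm
  have := Real.cos_le_one (2 * π * m / Np l)
  exact mul_nonneg (cw_pos l).le (by linarith)

lemma tm_le_two (l : ℕ) (m : ℤ) : tm l m ≤ 2 * cw l := by
  unfold tm
  have := Real.neg_one_le_cos (2 * π * m / Np l)
  nlinarith [cw_pos l]

lemma cw_le (l : ℕ) : cw l ≤ 2 ^ (6 * l ^ 2) / 2 := by
  unfold cw
  apply div_le_div_of_nonneg_right _ (by norm_num)
  have h1 : π * (l : ℝ) ^ 2 ≤ 4 * (l : ℝ) ^ 2 := by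
    apply mul_le_mul_of_nonneg_right Real.pi_le_four (by positivity)
  have h2 : exp (4 : ℝ) ≤ 2 ^ 6 := by
    have : exp (4 : ℝ) = exp 1 ^ 4 := by rw [← Real.exp_nat_mul]; norm_num
    rw [this]
    have h3 := Real.exp_one_lt_d9
    calc exp 1 ^ 4 ≤ (2.8 : ℝ) ^ 4 := by
          apply pow_le_pow_left₀ (Real.exp_pos 1).le; linarith
      _ ≤ 2 ^ 6 := by norm_num
  calc exp (π * (l : ℝ) ^ 2) ≤ exp (4 * (l : ℝ) ^ 2) := Real.exp_le_exp.mpr h1
    _ = (exp 4) ^ (l ^ 2) := by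
        rw [← Real.exp_nat_mul]; push_cast; ring_nf
    _ ≤ (2 ^ 6) ^ (l ^ 2) := pow_le_pow_left₀ (Real.exp_pos _).le h2 _
    _ = 2 ^ (6 * l ^ 2) := by rw [pow_mul]

/-- the main size comparison -/
lemma cw_Np (l k : ℕ) (h : k < l ∨ k = 0) :
    cw l * (Np k : ℝ) ^ 2 ≤ (1 / 2) * (1 / 2) ^ l * (Np l : ℝ) ^ 2 := by
  have h1 : 6 * l ^ 2 + 8 * k ^ 3 + l ≤ 8 * l ^ 3 := by
    rcases h with h | h
    · obtain ⟨d, rfl⟩ : ∃ d, l = k + 1 + d := ⟨l - (k+1), by omega⟩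
      nlinarith [Nat.zero_le d, Nat.zero_le k, mul_nonneg (Nat.zero_le d) (Nat.zero_le k),
        mul_nonneg (Nat.zero_le d) (Nat.zero_le (d * k)), mul_nonneg (Nat.zero_le d) (Nat.zero_le (k * k)),
        mul_nonneg (Nat.zero_le d) (Nat.zero_le (d * d)), Nat.zero_le (k*k), Nat.zero_le (d*d)]
    · subst h
      rcases Nat.eq_zero_or_pos l with h0 | h0
      · subst h0; norm_num
      · obtain ⟨d, rfl⟩ : ∃ d, l = 1 + d := ⟨l - 1, by omega⟩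
        nlinarith [Nat.zero_le d, Nat.zero_le (d*d), Nat.zero_le (d*d*d)]
  have h2 : (2 : ℝ) ^ (6 * l ^ 2) * (Np k : ℝ) ^ 2 * 2 ^ l ≤ (Np l : ℝ) ^ 2 := by
    have e1 : (2 : ℝ) ^ (6 * l ^ 2) * (Np k : ℝ) ^ 2 * 2 ^ l = 2 ^ (6 * l ^ 2 + 8 * k ^ 3 + l) := by
      unfold Np; push_cast; rw [← pow_mul, pow_add, pow_add]; ring_nf
    have e2 : (Np l : ℝ) ^ 2 = 2 ^ (8 * l ^ 3) := by
      unfold Np; push_cast; rw [← pow_mul]; ring_nf
    rw [e1, e2]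
    exact pow_le_pow_right₀ (by norm_num) h1
  have h3 : (2 : ℝ) ^ (6 * l ^ 2) * (Np k : ℝ) ^ 2 ≤ (1 / 2) ^ l * (Np l : ℝ) ^ 2 := by
    have e3 : ((1 : ℝ) / 2) ^ l * (Np l : ℝ) ^ 2 = (Np l : ℝ) ^ 2 / 2 ^ l := by
      rw [one_div, inv_pow]; ring
    rw [e3, le_div_iff₀ (by positivity)]
    exact h2
  calc cw l * (Np k : ℝ) ^ 2 ≤ (2 ^ (6 * l ^ 2) / 2) * (Np k : ℝ) ^ 2 := by
        apply mul_le_mul_of_nonneg_right (cw_le l) (by positivity)
    _ = (1 / 2) * (2 ^ (6 * l ^ 2) * (Np k : ℝ) ^ 2) := by ring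
    _ ≤ (1 / 2) * ((1 / 2) ^ l * (Np l : ℝ) ^ 2) := by linarith
    _ = _ := by ring

lemma one_sub_cos_le (x : ℝ) : 1 - cos x ≤ x ^ 2 / 2 := by
  have := Real.one_sub_sq_div_two_le_cos (x := x)
  linarith

lemma tm_le_sq (l : ℕ) (m : ℤ) : tm l m ≤ 20 * cw l * (m : ℝ) ^ 2 / (Np l : ℝ) ^ 2 := by
  unfold tm
  have h1 := one_sub_cos_le (2 * π * m / Np l)
  have h2 : (2 * π * m / Np l) ^ 2 / 2 = 2 * π ^ 2 * ((m : ℝ) ^ 2 / (Np l : ℝ) ^ 2) := by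
    field_simp
  have h3 : π ^ 2 ≤ 10 := by
    have := Real.pi_lt_d2
    have := Real.pi_pos
    nlinarith
  have h4 : 0 ≤ (m : ℝ) ^ 2 / (Np l : ℝ) ^ 2 := by positivity
  calc cw l * (1 - cos (2 * π * m / Np l)) ≤ cw l * (20 * ((m : ℝ) ^ 2 / (Np l : ℝ) ^ 2)) := by
        apply mul_le_mul_of_nonneg_left _ (cw_pos l).le
        rw [h2] at h1
        nlinarith
    _ = _ := by ring

lemma tm_tail (l k : ℕ) (m : ℤ) (h : k < l) (hm : |(m : ℝ)| ≤ Np k) :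
    tm l m ≤ 10 * (1 / 2) ^ l := by
  refine (tm_le_sq l m).trans ?_
  have h1 := cw_Np l k (Or.inl h)
  have hN := Np_posR l
  rw [div_le_iff₀ (by positivity)]
  have h2 : (m : ℝ) ^ 2 ≤ (Np k : ℝ) ^ 2 := by
    rw [← sq_abs]
    exact pow_le_pow_left₀ (abs_nonneg _) hm 2
  have h3 : cw l * (m : ℝ) ^ 2 ≤ cw l * (Np k : ℝ) ^ 2 :=
    mul_le_mul_of_nonneg_left h2 (cw_pos l).le
  nlinarith

lemma summable_tm (m : ℤ) : Summable (fun l => tm l m) := by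
  have hs : Summable (fun l : ℕ => (10 * (m : ℝ) ^ 2) * ((1 : ℝ) / 2) ^ l) :=
    (summable_geometric_two).mul_left _
  refine Summable.of_nonneg_of_le (fun l => tm_nonneg l m) (fun l => ?_) hs
  refine (tm_le_sq l m).trans ?_
  have h1 := cw_Np l 0 (Or.inr rfl)
  have hN := Np_posR l
  have h0 : (Np 0 : ℝ) = 1 := by norm_num [Np]
  rw [h0] at h1
  rw [div_le_iff₀ (by positivity)]
  have : (m : ℝ) ^ 2 * (cw l * 1 ^ 2) ≤ (m : ℝ) ^ 2 * (1 / 2 * (1 / 2) ^ l * (Np l : ℝ) ^ 2) :=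
    mul_le_mul_of_nonneg_left h1 (by positivity)
  nlinarith

noncomputable def bco (m : ℤ) (l : ℕ) : ℂ :=
  (√(cw l / 2) : ℝ) * (Complex.exp ((2 * π * m / Np l : ℝ) * Complex.I) - 1)

lemma norm_bco_sub (m b : ℤ) (l : ℕ) : ‖bco m l - bco (-b) l‖ ^ 2 = tm l (m + b) := by
  unfold bco tm
  have e : ((√(cw l / 2) : ℝ) : ℂ) * (Complex.exp ((2 * π * m / Np l : ℝ) * Complex.I) - 1)
    - ((√(cw l / 2) : ℝ) : ℂ) * (Complex.exp ((2 * π * ((-b : ℤ) : ℝ) / Np l : ℝ) * Complex.I) - 1)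
    = ((√(cw l / 2) : ℝ) : ℂ) * (Complex.exp ((2 * π * m / Np l : ℝ) * Complex.I)
      - Complex.exp ((2 * π * ((-b : ℤ) : ℝ) / Np l : ℝ) * Complex.I)) := by ring
  rw [e, norm_mul, mul_pow]
  have h1 : ‖((√(cw l / 2) : ℝ) : ℂ)‖ ^ 2 = cw l / 2 := by
    rw [Complex.norm_real, Real.norm_eq_abs, sq_abs, Real.sq_sqrt]
    have := cw_pos l; positivity
  rw [h1, ← Complex.normSq_eq_norm_sq, Complex.normSq_apply]
  simp only [Complex.sub_re, Complex.sub_im, Complex.exp_ofReal_mul_I_re,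
    Complex.exp_ofReal_mul_I_im]
  have e3 : (2 * π * ((-b : ℤ) : ℝ) / Np l : ℝ) = -(2 * π * (b : ℝ) / Np l) := by
    push_cast; ring
  have e4 : (2 * π * ((m + b : ℤ) : ℝ) / Np l : ℝ) = 2 * π * m / Np l + 2 * π * b / Np l := by
    push_cast; ring
  rw [e3, e4, Real.cos_add, Real.cos_neg, Real.sin_neg]
  have s1 := Real.sin_sq_add_cos_sq (2 * π * m / Np l)
  have s2 := Real.sin_sq_add_cos_sq (2 * π * b / Np l)
  linear_combination (cw l / 2) * s1 + (cw l / 2) * s2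

lemma bco_zero (l : ℕ) : bco 0 l = 0 := by simp [bco]

lemma norm_bco (m : ℤ) (l : ℕ) : ‖bco m l‖ ^ 2 = tm l m := by
  have := norm_bco_sub m 0 l
  simpa [bco_zero] using this

lemma memlp_bco (m : ℤ) : Memℓp (bco m) 2 := by
  rw [memℓp_gen_iff (by norm_num)]
  have := summable_tm m
  convert this using 2 with l
  rw [← norm_bco]; norm_num

/-- the cocycle -/
noncomputable def coc (m : ℤ) : lp (fun _ : ℕ => ℂ) 2 := ⟨bco m, memlp_bco m⟩

lemma lp_norm_sq (f : lp (fun _ : ℕ => ℂ) 2) : ‖f‖ ^ 2 = ∑' i, ‖f i‖ ^ 2 := by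
  rw [← real_inner_self_eq_norm_sq, lp.inner_eq_tsum]
  simp

noncomputable def psi (m : ℤ) : ℝ := ∑' l, tm l m

lemma norm_coc_sub (m b : ℤ) : ‖coc m - coc (-b)‖ ^ 2 = psi (m + b) := by
  rw [lp_norm_sq, psi]
  apply tsum_congr
  intro l
  rw [← norm_bco_sub]
  rfl

lemma norm_coc (m : ℤ) : ‖coc m‖ ^ 2 = psi m := by
  rw [lp_norm_sq, psi]
  apply tsum_congr
  intro l
  rw [← norm_bco]
  rfl

lemma psi_nonneg (m : ℤ) : 0 ≤ psi m := tsum_nonneg (fun l => tm_nonneg l m)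

lemma norm_coc' (m : ℤ) : ‖coc m‖ = √(psi m) := by
  rw [← norm_coc, Real.sqrt_sq (norm_nonneg _)]

/-- norms move by at most `‖coc b‖` under translation by `b` -/
lemma abs_norm_coc_add_sub (m b : ℤ) : |‖coc (m + b)‖ - ‖coc m‖| ≤ ‖coc b‖ := by
  have h1 : ‖coc (m + b)‖ = ‖coc m - coc (-b)‖ := by
    have := norm_coc_sub m b
    rw [← norm_coc] at this
    exact (pow_left_inj₀ (norm_nonneg _) (norm_nonneg _) two_ne_zero).mp this.symm
  have h2 : ‖coc (-b)‖ = ‖coc b‖ := by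
    have h3 : psi (-b) = psi b := by
      unfold psi tm
      apply tsum_congr
      intro l
      have : (2 * π * ((-b : ℤ) : ℝ) / Np l : ℝ) = -(2 * π * (b : ℝ) / Np l) := by
        push_cast; ring
      rw [this, Real.cos_neg]
    rw [norm_coc', norm_coc', h3]
  rw [h1, ← h2]
  have := abs_norm_sub_norm_le (coc m - coc (-b)) (coc m)
  have e : coc m - coc (-b) - coc m = - coc (-b) := by abel
  rw [e, norm_neg] at this
  exact this

lemma psi_le (L : ℕ) (m : ℤ) (hm : |(m : ℝ)| ≤ Np L) :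
    psi m ≤ ∑ l ∈ Finset.range (L + 1), tm l m + 10 * (1 / 2) ^ L := by
  unfold psi
  rw [← (summable_tm m).sum_add_tsum_nat_add (L + 1)]
  have hs : Summable (fun l : ℕ => (10 * (1 / 2 : ℝ) ^ (L + 1)) * ((1 : ℝ) / 2) ^ l) :=
    (summable_geometric_two).mul_left _
  have h1 : ∑' l, tm (l + (L + 1)) m ≤ ∑' l : ℕ, (10 * (1 / 2 : ℝ) ^ (L + 1)) * ((1 : ℝ) / 2) ^ l := by
    apply Summable.tsum_le_tsum _ ((summable_nat_add_iff (L + 1)).mpr (summable_tm m)) hs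
    intro l
    refine (tm_tail (l + (L + 1)) L m (by omega) hm).trans (le_of_eq ?_)
    rw [pow_add]; ring
  rw [tsum_mul_left, tsum_geometric_two] at h1
  have h2 : (10 * (1 / 2 : ℝ) ^ (L + 1)) * 2 = 10 * (1 / 2) ^ L := by
    rw [pow_succ]; ring
  linarith

lemma tm_le_psi (l : ℕ) (m : ℤ) : tm l m ≤ psi m :=
  (summable_tm m).le_tsum l (fun j _ => tm_nonneg j m)

lemma Np_dvd {l k : ℕ} (h : l ≤ k) : Np l ∣ Np k := by
  unfold Np
  apply pow_dvd_pow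
  have : l ^ 3 ≤ k ^ 3 := Nat.pow_le_pow_left h 3
  omega

/-- vanishing of a term at a multiple of the period -/
lemma tm_eq_zero {l : ℕ} {m : ℤ} (h : (Np l : ℤ) ∣ m) : tm l m = 0 := by
  obtain ⟨q, rfl⟩ := h
  unfold tm
  have h1 : 2 * π * (((Np l : ℤ) * q : ℤ) : ℝ) / Np l = q * (2 * π) := by
    have := Np_posR l
    push_cast
    field_simp
  rw [h1, Real.cos_int_mul_two_pi]
  ring

lemma psi_Np_le (k : ℕ) : psi (Np k) ≤ 10 * (1 / 2) ^ k := by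
  have h := psi_le k (Np k) (by push_cast; rw [abs_of_pos (Np_posR k)])
  have h0 : ∑ l ∈ Finset.range (k + 1), tm l (Np k) = 0 := by
    apply Finset.sum_eq_zero
    intro l hl
    rw [Finset.mem_range] at hl
    apply tm_eq_zero
    exact_mod_cast Np_dvd (by omega : l ≤ k)
  linarith

end Pool.Agent.L0h85.NullC
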