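import Pool.Agent.L0h85.NullCover
import Pool.Agent.L0h85.NullSeq

set_option autoImplicit false

namespace Pool.Agent.L0h85.NullC

open Real Filter Topology

/-- the transitive point -/
noncomputable def x0 (m : ℕ) : ℝ := cos (log (1 + ‖coc (m : ℤ)‖ ^ 2))

def Mh (L : ℕ) : ℕ := Np L / 2

lemma two_dvd_Np {L : ℕ} (hL : 1 ≤ L) : 4 ∣ Np L := by
  unfold Np
  have : 2 ≤ 4 * L ^ 3 := by
    have : 1 ≤ L ^ 3 := Nat.one_le_pow _ _ hL
    omega
  exact pow_dvd_pow 2 this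

lemma two_mul_Mh {L : ℕ} (hL : 1 ≤ L) : 2 * Mh L = Np L := by
  unfold Mh
  obtain ⟨q, hq⟩ := two_dvd_Np hL
  omega

lemma Np_dvd_Mh {l L : ℕ} (h : l < L) : Np l ∣ Mh L := by
  unfold Mh Np
  have h1 : l ^ 3 + 1 ≤ L ^ 3 := by
    have : l ^ 3 < L ^ 3 := Nat.pow_lt_pow_left h (by norm_num)
    omega
  have h2 : 2 ^ (4 * L ^ 3) / 2 = 2 ^ (4 * L ^ 3 - 1) := by
    have : 4 * L ^ 3 = (4 * L ^ 3 - 1) + 1 := by omega
    rw [this, pow_succ]; simp
  rw [h2]
  exact pow_dvd_pow 2 (by omega)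

lemma tm_Mh {L : ℕ} (hL : 1 ≤ L) : tm L (Mh L) = exp (π * (L : ℝ) ^ 2) := by
  unfold tm
  have h1 : 2 * π * (((Mh L : ℕ) : ℤ) : ℝ) / Np L = π := by
    have h2 : (2 : ℝ) * (Mh L : ℝ) = Np L := by exact_mod_cast two_mul_Mh hL
    have h3 := Np_posR L
    push_cast
    rw [← h2] at h3 ⊢
    have h4 : (Mh L : ℝ) ≠ 0 := by intro h; rw [h] at h3; simp at h3
    field_simp
  rw [h1, Real.cos_pi]
  unfold cw; ring

lemma Mh_le (L : ℕ) : Mh L ≤ Np L := Nat.div_le_self _ _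

lemma psi_Mh_ge {L : ℕ} (hL : 1 ≤ L) : exp (π * (L : ℝ) ^ 2) ≤ psi (Mh L) := by
  rw [← tm_Mh hL]; exact tm_le_psi _ _

lemma psi_Mh_le {L : ℕ} (hL : 1 ≤ L) : psi (Mh L) ≤ exp (π * (L : ℝ) ^ 2) + 10 := by
  have h := psi_le L (Mh L) (by
    push_cast
    rw [abs_of_nonneg (by positivity)]
    exact_mod_cast Mh_le L)
  rw [Finset.sum_range_succ] at h
  have h0 : ∑ l ∈ Finset.range L, tm l (Mh L) = 0 := by
    apply Finset.sum_eq_zero
    intro l hl
    rw [Finset.mem_range] at hl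
    apply tm_eq_zero
    exact_mod_cast Np_dvd_Mh hl
  rw [h0, tm_Mh hL] at h
  have h3 : ((1 : ℝ) / 2) ^ L ≤ 1 := pow_le_one₀ (by norm_num) (by norm_num)
  linarith

/-- closeness to the constant at the half periods -/
lemma x0_near_const (j : ℕ) : ∃ C : ℝ, 1 ≤ C ∧ ∀ L : ℕ, 1 ≤ L → 2 * C ≤ exp (π * (L : ℝ) ^ 2 / 2) →
    |x0 (Mh L + j) - cos (π * (L : ℝ) ^ 2)| ≤ (4 + 10 * C) / exp (π * (L : ℝ) ^ 2 / 2) := by
  refine ⟨‖coc (j : ℤ)‖ + 4, by linarith [norm_nonneg (coc (j : ℤ))], fun L hL ht => ?_⟩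
  set t := exp (π * (L : ℝ) ^ 2 / 2) with htdef
  set C := ‖coc (j : ℤ)‖ + 4 with hC
  have hC4 : 4 ≤ C := by rw [hC]; linarith [norm_nonneg (coc (j : ℤ))]
  have ht2 : exp (π * (L : ℝ) ^ 2) = t ^ 2 := by
    rw [htdef, ← Real.exp_nat_mul]; congr 1; push_cast; ring
  have ht0 : 0 < t := Real.exp_pos _
  have ht1 : 1 ≤ t := by linarith
  set p := ‖coc (Mh L : ℤ)‖ with hp
  set s := ‖coc ((Mh L : ℤ) + (j : ℤ))‖ with hs
  have hps : |s - p| ≤ ‖coc (j : ℤ)‖ := abs_norm_coc_add_sub _ _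
  have hp2 : p ^ 2 = psi (Mh L) := norm_coc _
  have hpl : t ^ 2 ≤ p ^ 2 := by rw [hp2, ← ht2]; exact psi_Mh_ge hL
  have hpu : p ^ 2 ≤ t ^ 2 + 10 := by rw [hp2, ← ht2]; exact psi_Mh_le hL
  have hp0 : 0 ≤ p := norm_nonneg _
  have hs0 : 0 ≤ s := norm_nonneg _
  have hpt : t ≤ p := by nlinarith
  have hpt2 : p ≤ t + 4 := by nlinarith
  have hst : |s - t| ≤ C := by
    rw [abs_le] at hps ⊢
    constructor <;> linarith [hps.1, hps.2]
  have hst' := abs_le.mp hst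
  have hsl : t / 2 ≤ s := by linarith
  have hlogt : π * (L : ℝ) ^ 2 = log (t ^ 2) := by rw [← ht2, Real.log_exp]
  have hx : x0 (Mh L + j) = cos (log (1 + s ^ 2)) := by
    unfold x0; rw [hs]; push_cast; rfl
  rw [hx, hlogt]
  have hA : 0 < t ^ 2 / 4 := by positivity
  refine (abs_cos_log_sub_le hA (by nlinarith) (by nlinarith)).trans ?_
  rw [div_le_div_iff₀ hA ht0]
  have h5 : |1 + s ^ 2 - t ^ 2| ≤ 1 + (5 / 2) * C * t := by
    have e : 1 + s ^ 2 - t ^ 2 = 1 + (s - t) * (s + t) := by ring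
    rw [e]
    refine (abs_add_le _ _).trans ?_
    rw [abs_one, abs_mul]
    have h6 : |s + t| ≤ (5 / 2) * t := by
      rw [abs_of_nonneg (by positivity)]; linarith
    have h7 : |s - t| * |s + t| ≤ C * ((5 / 2) * t) :=
      mul_le_mul hst h6 (abs_nonneg _) (by linarith)
    linarith
  have h8 : |1 + s ^ 2 - t ^ 2| * t ≤ (1 + (5 / 2) * C * t) * t :=
    mul_le_mul_of_nonneg_right h5 ht0.le
  have h9 : (1 + (5 / 2) * C * t) * t ≤ (4 + 10 * C) * (t ^ 2 / 4) := by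
    nlinarith
  linarith

lemma tendsto_x0_const (j : ℕ) :
    Tendsto (fun k : ℕ => x0 (Mh (2 * k + 1) + j)) atTop (𝓝 (-1)) := by
  obtain ⟨C, hC1, hC⟩ := x0_near_const j
  have hlin : Tendsto (fun k : ℕ => π * ((2 * k + 1 : ℕ) : ℝ) ^ 2 / 2) atTop atTop := by
    have h1 : Tendsto (fun k : ℕ => (k : ℝ)) atTop atTop := tendsto_natCast_atTop_atTop
    refine tendsto_atTop_mono (fun k => ?_) h1
    push_cast
    have hpi := Real.pi_gt_three
    have hk : (0 : ℝ) ≤ k := by positivity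
    nlinarith [sq_nonneg ((k : ℝ)), mul_nonneg hk hk]
  have hexp : Tendsto (fun k : ℕ => exp (π * ((2 * k + 1 : ℕ) : ℝ) ^ 2 / 2)) atTop atTop :=
    Real.tendsto_exp_atTop.comp hlin
  have hcos : ∀ k : ℕ, cos (π * ((2 * k + 1 : ℕ) : ℝ) ^ 2) = -1 := by
    intro k
    have : π * ((2 * k + 1 : ℕ) : ℝ) ^ 2 = ((2 * k ^ 2 + 2 * k : ℕ) : ℝ) * (2 * π) + π := by
      push_cast; ring
    rw [this, Real.cos_nat_mul_two_pi_add_pi]
  have hz : Tendsto (fun k : ℕ => (4 + 10 * C) / exp (π * ((2 * k + 1 : ℕ) : ℝ) ^ 2 / 2)) atTop (𝓝 0) :=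
    Tendsto.const_div_atTop hexp _
  rw [tendsto_iff_dist_tendsto_zero]
  refine squeeze_zero' (Eventually.of_forall fun _ => dist_nonneg) ?_ hz
  filter_upwards [hexp.eventually_ge_atTop (2 * C)] with k hk
  have := hC (2 * k + 1) (by omega) hk
  rw [hcos k] at this
  rw [Real.dist_eq]
  exact this

/-- positivity on the middle halves of even levels -/
lemma x0_nonneg (k n : ℕ) (hk : 2 ≤ k) (h1 : Np (2 * k) ≤ 4 * n) (h2 : 4 * n ≤ 3 * Np (2 * k)) :
    0 ≤ x0 n := by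
  set L := 2 * k with hL
  have hN := Np_posR L
  have h1' : (Np L : ℝ) ≤ 4 * n := by exact_mod_cast h1
  have h2' : (4 : ℝ) * n ≤ 3 * Np L := by exact_mod_cast h2
  have hlow : exp (π * (L : ℝ) ^ 2) / 2 ≤ psi n := by
    refine le_trans ?_ (tm_le_psi L n)
    unfold tm
    have hc : cos (2 * π * ((n : ℤ) : ℝ) / Np L) ≤ 0 := by
      push_cast
      have hp := Real.pi_pos
      apply Real.cos_nonpos_of_pi_div_two_le_of_le
      · rw [div_le_div_iff₀ (by norm_num) hN]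
        nlinarith
      · rw [div_le_iff₀ hN]
        nlinarith
    change cw L ≤ _
    nlinarith [cw_pos L]
  have hup : psi n ≤ ∑ l ∈ Finset.range L, 2 * cw l + 2 * cw L + 10 * (1 / 2) ^ L := by
    have h := psi_le L n (by
      push_cast
      rw [abs_of_nonneg (by positivity)]
      linarith)
    refine h.trans ?_
    rw [Finset.sum_range_succ]
    have h4 : ∑ l ∈ Finset.range L, tm l n ≤ ∑ l ∈ Finset.range L, 2 * cw l :=
      Finset.sum_le_sum (fun l _ => tm_le_two l n)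
    linarith [tm_le_two L n]
  have hsum : ∑ l ∈ Finset.range L, 2 * cw l ≤ L * exp (π * ((L : ℝ) - 1) ^ 2) := by
    have : ∀ l ∈ Finset.range L, 2 * cw l ≤ exp (π * ((L : ℝ) - 1) ^ 2) := by
      intro l hl
      rw [Finset.mem_range] at hl
      have h5 : (l : ℝ) ≤ (L : ℝ) - 1 := by
        have : ((l + 1 : ℕ) : ℝ) ≤ L := by exact_mod_cast hl
        push_cast at this; linarith
      have h6 : 2 * cw l = exp (π * (l : ℝ) ^ 2) := by unfold cw; ring
      rw [h6]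
      apply Real.exp_le_exp.mpr
      apply mul_le_mul_of_nonneg_left _ Real.pi_pos.le
      exact pow_le_pow_left₀ (by positivity) h5 2
    have h7 := Finset.sum_le_sum this
    simpa using h7
  have hL4 : (4 : ℝ) ≤ L := by
    have : 4 ≤ L := by omega
    exact_mod_cast this
  set e1 := exp (π * ((L : ℝ) - 1) ^ 2) with he1
  have he1one : 1 ≤ e1 := by
    rw [he1]; apply Real.one_le_exp; have := Real.pi_pos; positivity
  have hexp : exp (π * (L : ℝ) ^ 2) = e1 * exp (π * (2 * L - 1)) := by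
    rw [he1, ← Real.exp_add]; congr 1; ring
  have hge : π * (2 * L - 1) + 1 ≤ exp (π * (2 * L - 1)) := Real.add_one_le_exp _
  have hge2 : 6 * (L : ℝ) - 2 ≤ exp (π * (2 * L - 1)) := by
    have := Real.pi_gt_three
    nlinarith
  have hbig : L * e1 + 11 ≤ exp (π * (L : ℝ) ^ 2) := by
    rw [hexp]
    have h8 : e1 * (6 * (L : ℝ) - 2) ≤ e1 * exp (π * (2 * L - 1)) :=
      mul_le_mul_of_nonneg_left hge2 (by linarith)
    nlinarith
  have h3 : ((1 : ℝ) / 2) ^ L ≤ 1 := pow_le_one₀ (by norm_num) (by norm_num)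
  have hcwL : 2 * cw L = exp (π * (L : ℝ) ^ 2) := by unfold cw; ring
  have hup2 : 1 + psi n ≤ 2 * exp (π * (L : ℝ) ^ 2) := by
    rw [hcwL] at hup
    linarith
  have hE : 0 < exp (π * (L : ℝ) ^ 2) := Real.exp_pos _
  have hlog1 : log (1 + psi n) ≤ π * (L : ℝ) ^ 2 + log 2 := by
    have h9 := Real.log_le_log (by linarith [psi_nonneg n]) hup2
    rw [Real.log_mul (by norm_num) hE.ne', Real.log_exp] at h9
    linarith
  have hlog2 : π * (L : ℝ) ^ 2 - log 2 ≤ log (1 + psi n) := by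
    have h9 : exp (π * (L : ℝ) ^ 2) / 2 ≤ 1 + psi n := by linarith
    have h10 := Real.log_le_log (by positivity) h9
    rw [Real.log_div hE.ne' (by norm_num), Real.log_exp] at h10
    exact h10
  have hl2 : log 2 ≤ π / 2 := by
    have := Real.log_two_lt_d9
    have := Real.pi_gt_three
    linarith
  unfold x0
  rw [norm_coc]
  have hper : cos (log (1 + psi n)) = cos (log (1 + psi n) - π * (L : ℝ) ^ 2) := by
    have e : π * (L : ℝ) ^ 2 = ((2 * k ^ 2 : ℕ) : ℝ) * (2 * π) := by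
      rw [hL]; push_cast; ring
    rw [e, Real.cos_sub_nat_mul_two_pi]
  rw [hper]
  apply Real.cos_nonneg_of_neg_pi_div_two_le_of_le
  · linarith
  · linarith

/-- uniform rigidity -/
lemma x0_rigid (k n : ℕ) (hk : 4 ≤ k) : |x0 (n + Np k) - x0 n| ≤ 2 * √(10 * (1 / 2) ^ k) := by
  unfold x0
  have h1 : |‖coc (((n + Np k : ℕ) : ℤ))‖ - ‖coc (n : ℤ)‖| ≤ √(10 * (1 / 2) ^ k) := by
    push_cast
    refine (abs_norm_coc_add_sub _ _).trans ?_
    rw [norm_coc']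
    exact Real.sqrt_le_sqrt (psi_Np_le k)
  have hδ1 : √(10 * (1 / 2) ^ k) ≤ 1 := by
    rw [← Real.sqrt_one]
    apply Real.sqrt_le_sqrt
    have : ((1 : ℝ) / 2) ^ k ≤ (1 / 2) ^ 4 := pow_le_pow_of_le_one (by norm_num) (by norm_num) hk
    norm_num at this ⊢
    linarith
  set δ := √(10 * (1 / 2) ^ k)
  have hδ0 : 0 ≤ δ := Real.sqrt_nonneg _
  set s := ‖coc (((n + Np k : ℕ) : ℤ))‖
  set t := ‖coc (n : ℤ)‖
  have hs : 0 ≤ s := norm_nonneg _
  have ht : 0 ≤ t := norm_nonneg _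
  have key : ∀ s t : ℝ, 0 ≤ t → t ≤ s → |s - t| ≤ δ →
      |cos (log (1 + s ^ 2)) - cos (log (1 + t ^ 2))| ≤ 2 * δ := by
    intro s t ht hst hd
    have hA : 0 < 1 + t ^ 2 := by positivity
    refine (abs_cos_log_sub_le hA (by nlinarith) le_rfl).trans ?_
    rw [div_le_iff₀ hA]
    have e : 1 + s ^ 2 - (1 + t ^ 2) = (s - t) * (s + t) := by ring
    rw [e, abs_mul]
    have h2 : |s + t| ≤ 2 * t + 1 := by
      rw [abs_of_nonneg (by linarith)]
      have := (abs_le.mp hd).2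
      linarith
    have h3 : 2 * t + 1 ≤ 2 * (1 + t ^ 2) := by nlinarith [sq_nonneg (t - 1)]
    calc |s - t| * |s + t| ≤ δ * (2 * (1 + t ^ 2)) := by
          apply mul_le_mul hd (h2.trans h3) (abs_nonneg _) hδ0
      _ = 2 * δ * (1 + t ^ 2) := by ring
  rcases le_total t s with h | h
  · exact key s t ht h h1
  · have := key t s hs h (by rw [abs_sub_comm]; exact h1)
    rw [abs_sub_comm]; exact this

end Pool.Agent.L0h85.NullC
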