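import Mathlib

/-!
# An abstract resolvent lower bound for semigroups with a partial left inverse
-/

open Filter Topology

namespace Pool.Agent.L0h85.Sg

lemma one_add_le_exp_half {v : ℝ} (_hv : 0 ≤ v) : 1 + v ≤ 2 * Real.exp (v / 2) := by
  have h := Real.add_one_le_exp (v / 2)
  nlinarith [Real.exp_pos (v / 2)]

lemma one_sub_exp_ge {v : ℝ} (h0 : 0 ≤ v) (h1 : v ≤ 1) : v / 4 ≤ 1 - Real.exp (-(v / 2)) := by
  have h := Real.exp_bound_div_one_sub_of_interval (x := v / 2) (by linarith) (by linarith)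
  have h2 : 1 - v / 2 > 0 := by linarith
  have h3 : Real.exp (v / 2) ≤ 1 / (1 - v / 2) := h
  have h4 : Real.exp (-(v / 2)) = 1 / Real.exp (v / 2) := by rw [Real.exp_neg, one_div]
  have h5 : 1 + v / 2 ≤ Real.exp (v / 2) := by linarith [Real.add_one_le_exp (v / 2)]
  rw [h4]
  have h6 : 1 / Real.exp (v / 2) ≤ 1 / (1 + v / 2) :=
    one_div_le_one_div_of_le (by linarith) h5
  have h7 : 1 / (1 + v / 2) ≤ 1 - v / 4 := by
    rw [div_le_iff₀ (by linarith)]
    nlinarith
  linarith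

variable {E F : Type*} [NormedAddCommGroup E] [NormedSpace ℂ E] [NormedAddCommGroup F]
  [NormedSpace ℂ F]

/-- first part: the bound for the part which is killed by `T L` -/
lemma part_one (T : ℝ → E →L[ℂ] E) (hsg : ∀ s t : ℝ, 0 ≤ s → 0 ≤ t → T (s + t) = (T s).comp (T t))
    (hT0 : ∀ x, T 0 x = x) (hT1 : ∀ t : ℝ, 0 ≤ t → ∀ x, ‖T t x‖ ≤ ‖x‖) (P : E →L[ℂ] F)
    (hP : ∀ x, ‖P x‖ ≤ ‖x‖) (s h : ℝ) (hs : 0 ≤ s) (hh : 0 ≤ h) (a : ℂ) (ha : ‖a‖ = Real.exp (-(s * h)))
    (x g : E) (hx : T h x = a • x - (h : ℂ) • g) (N : ℕ) :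
    ‖P x‖ ≤ Real.exp (s * (N * h)) * ‖P (T (N * h) x)‖ + N * h * Real.exp (s * (N * h)) * ‖g‖ := by
  induction N with
  | zero => simp [hT0]
  | succ N ih =>
    have hN : 0 ≤ (N : ℝ) * h := by positivity
    have h1 : T (((N + 1 : ℕ) : ℝ) * h) x = a • T (N * h) x - (h : ℂ) • T (N * h) g := by
      have e : (((N + 1 : ℕ) : ℝ) * h) = N * h + h := by push_cast; ring
      rw [e, hsg _ _ hN hh, ContinuousLinearMap.comp_apply, hx, map_sub, map_smul, map_smul]
    have hane : ‖a‖ * Real.exp (s * h) = 1 := by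
      rw [ha, ← Real.exp_add]; simp
    have h2 : a • P (T (N * h) x) = P (T (((N + 1 : ℕ) : ℝ) * h) x) + (h : ℂ) • P (T (N * h) g) := by
      rw [h1, map_sub, map_smul, map_smul]; abel
    have h3 : ‖a‖ * ‖P (T (N * h) x)‖ ≤ ‖P (T (((N + 1 : ℕ) : ℝ) * h) x)‖ + h * ‖g‖ := by
      rw [← norm_smul, h2]
      refine (norm_add_le _ _).trans ?_
      gcongr
      rw [norm_smul, Complex.norm_real, Real.norm_eq_abs, abs_of_nonneg hh]
      gcongr
      exact (hP _).trans (hT1 _ hN _)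
    have h4 : ‖P (T (N * h) x)‖ ≤
        Real.exp (s * h) * (‖P (T (((N + 1 : ℕ) : ℝ) * h) x)‖ + h * ‖g‖) := by
      calc ‖P (T (N * h) x)‖ = Real.exp (s * h) * (‖a‖ * ‖P (T (N * h) x)‖) := by
            rw [← mul_assoc, mul_comm (Real.exp _), hane, one_mul]
        _ ≤ _ := mul_le_mul_of_nonneg_left h3 (Real.exp_pos _).le
    have e2 : Real.exp (s * (((N + 1 : ℕ) : ℝ) * h)) = Real.exp (s * (N * h)) * Real.exp (s * h) := by
      rw [← Real.exp_add]; congr 1; push_cast; ring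
    have h5 : Real.exp (s * (N * h)) ≤ Real.exp (s * (N * h)) * Real.exp (s * h) := by
      have : 1 ≤ Real.exp (s * h) := Real.one_le_exp (by positivity)
      nlinarith [Real.exp_pos (s * (N * h))]
    rw [e2]
    push_cast
    have hg := norm_nonneg g
    calc ‖P x‖ ≤ Real.exp (s * (N * h)) * ‖P (T (N * h) x)‖ +
          N * h * Real.exp (s * (N * h)) * ‖g‖ := ih
      _ ≤ Real.exp (s * (N * h)) * (Real.exp (s * h) *
            (‖P (T (((N + 1 : ℕ) : ℝ) * h) x)‖ + h * ‖g‖)) +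
          N * h * (Real.exp (s * (N * h)) * Real.exp (s * h)) * ‖g‖ := by
          gcongr
      _ = _ := by push_cast; ring

/-- second part: the bound for the part on which the left inverses grow slowly -/
lemma part_two (T : ℝ → E →L[ℂ] E) (C : ℝ → E →L[ℂ] F) (s : ℝ) (hs : 0 < s)
    (hC : ∀ u h : ℝ, 0 ≤ u → 0 ≤ h → ∀ x, C (u + h) (T h x) = C u x)
    (hC1 : ∀ u : ℝ, 0 ≤ u → ∀ x, ‖C u x‖ ≤ (1 + s * u) * ‖x‖)
    (h : ℝ) (hh : 0 < h) (hsh : s * h ≤ 1) (a : ℂ) (ha : ‖a‖ = Real.exp (-(s * h)))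
    (x g : E) (hx : T h x = a • x - (h : ℂ) • g) (N : ℕ) :
    ‖C 0 x‖ ≤ Real.exp (-(s * (N * h))) * ‖C (N * h) x‖ +
      16 / s * (1 - Real.exp (-(s * (N * h) / 2))) * ‖g‖ := by
  induction N with
  | zero => simp
  | succ N ih =>
    have hN : 0 ≤ (N : ℝ) * h := by positivity
    have hN1 : 0 ≤ ((N + 1 : ℕ) : ℝ) * h := by positivity
    have e : (((N + 1 : ℕ) : ℝ) * h) = N * h + h := by push_cast; ring
    have h1 : C (N * h) x = a • C (((N + 1 : ℕ) : ℝ) * h) x -
        (h : ℂ) • C (((N + 1 : ℕ) : ℝ) * h) g := by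
      rw [← hC (N * h) h hN hh.le x, hx, map_sub, map_smul, map_smul, e]
    have h2 : ‖C (N * h) x‖ ≤ Real.exp (-(s * h)) * ‖C (((N + 1 : ℕ) : ℝ) * h) x‖ +
        h * ((1 + s * (((N + 1 : ℕ) : ℝ) * h)) * ‖g‖) := by
      rw [h1]
      refine (norm_sub_le _ _).trans ?_
      rw [norm_smul, norm_smul, ha, Complex.norm_real, Real.norm_eq_abs, abs_of_nonneg hh.le]
      gcongr
      exact hC1 _ hN1 _
    have e2 : Real.exp (-(s * (((N + 1 : ℕ) : ℝ) * h))) =
        Real.exp (-(s * (N * h))) * Real.exp (-(s * h)) := by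
      rw [← Real.exp_add]; congr 1; push_cast; ring
    -- the potential
    have h3 : Real.exp (-(s * (N * h))) * (h * (1 + s * (((N + 1 : ℕ) : ℝ) * h))) ≤
        16 / s * (Real.exp (-(s * (N * h) / 2)) - Real.exp (-(s * (((N + 1 : ℕ) : ℝ) * h) / 2))) := by
      have h4 := one_add_le_exp_half (v := s * (((N + 1 : ℕ) : ℝ) * h)) (by positivity)
      have h5 := one_sub_exp_ge (v := s * h) (by positivity) hsh
      have e3 : Real.exp (-(s * (((N + 1 : ℕ) : ℝ) * h) / 2)) =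
          Real.exp (-(s * (N * h) / 2)) * Real.exp (-(s * h / 2)) := by
        rw [← Real.exp_add]; congr 1; push_cast; ring
      have e4 : Real.exp (-(s * (N * h))) * Real.exp (s * (((N + 1 : ℕ) : ℝ) * h) / 2) =
          Real.exp (-(s * (N * h) / 2)) * Real.exp (s * h / 2) := by
        rw [← Real.exp_add, ← Real.exp_add]; congr 1; push_cast; ring
      have h6 : Real.exp (s * h / 2) ≤ 2 := by
        have h7 : Real.exp (s * h / 2) ≤ Real.exp (1 / 2) := by
          apply Real.exp_le_exp.2; linarith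
        have h8 : Real.exp (1 / 2) ≤ 2 := by
          have h9 : Real.exp (1 / 2) ^ 2 = Real.exp 1 := by
            rw [← Real.exp_nat_mul]; norm_num
          have h10 := Real.exp_one_lt_d9
          nlinarith [Real.exp_pos (1 / 2)]
        linarith
      have hE := Real.exp_pos (-(s * (N * h) / 2))
      have hE2 := Real.exp_pos (-(s * (N * h)))
      calc Real.exp (-(s * (N * h))) * (h * (1 + s * (((N + 1 : ℕ) : ℝ) * h)))
          ≤ Real.exp (-(s * (N * h))) * (h * (2 * Real.exp (s * (((N + 1 : ℕ) : ℝ) * h) / 2))) := by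
            gcongr
        _ = 2 * h * (Real.exp (-(s * (N * h) / 2)) * Real.exp (s * h / 2)) := by
            rw [← e4]; ring
        _ ≤ 2 * h * (Real.exp (-(s * (N * h) / 2)) * 2) := by gcongr
        _ = 16 / s * (Real.exp (-(s * (N * h) / 2)) * (s * h / 4)) := by
            field_simp; ring
        _ ≤ 16 / s * (Real.exp (-(s * (N * h) / 2)) * (1 - Real.exp (-(s * h / 2)))) := by
            gcongr
        _ = _ := by rw [e3]; ring
    rw [e2]
    calc ‖C 0 x‖ ≤ Real.exp (-(s * (N * h))) * ‖C (N * h) x‖ +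
          16 / s * (1 - Real.exp (-(s * (N * h) / 2))) * ‖g‖ := ih
      _ ≤ Real.exp (-(s * (N * h))) * (Real.exp (-(s * h)) * ‖C (((N + 1 : ℕ) : ℝ) * h) x‖ +
            h * ((1 + s * (((N + 1 : ℕ) : ℝ) * h)) * ‖g‖)) +
          16 / s * (1 - Real.exp (-(s * (N * h) / 2))) * ‖g‖ := by gcongr
      _ = Real.exp (-(s * (N * h))) * Real.exp (-(s * h)) * ‖C (((N + 1 : ℕ) : ℝ) * h) x‖ +
          (Real.exp (-(s * (N * h))) * (h * (1 + s * (((N + 1 : ℕ) : ℝ) * h))) +
          16 / s * (1 - Real.exp (-(s * (N * h) / 2)))) * ‖g‖ := by ring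
      _ ≤ Real.exp (-(s * (N * h))) * Real.exp (-(s * h)) * ‖C (((N + 1 : ℕ) : ℝ) * h) x‖ +
          (16 / s * (Real.exp (-(s * (N * h) / 2)) -
            Real.exp (-(s * (((N + 1 : ℕ) : ℝ) * h) / 2))) +
          16 / s * (1 - Real.exp (-(s * (N * h) / 2)))) * ‖g‖ := by gcongr
      _ = _ := by ring


lemma exp_mul_tendsto (s h : ℝ) (hs : 0 < s) (hh : 0 < h) (c : ℝ) :
    Tendsto (fun M : ℕ => Real.exp (-(s * (M * h))) * ((1 + s * (M * h)) * c)) atTop (𝓝 0) := by
  have h1 : Tendsto (fun M : ℕ => s * ((M : ℝ) * h)) atTop atTop :=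
    (tendsto_natCast_atTop_atTop.atTop_mul_const hh).const_mul_atTop hs
  have h2 : Tendsto (fun v : ℝ => Real.exp (-v) * ((1 + v) * c)) atTop (𝓝 0) := by
    have a1 := Real.tendsto_pow_mul_exp_neg_atTop_nhds_zero 0
    have a2 := Real.tendsto_pow_mul_exp_neg_atTop_nhds_zero 1
    have a3 := (a1.add a2).mul_const c
    simp only [add_zero, zero_mul] at a3
    refine a3.congr (fun v => ?_)
    simp only [pow_zero, pow_one]
    ring
  exact h2.comp h1

/-- the combined estimate -/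
lemma abs_bound (T : ℝ → E →L[ℂ] E)
    (hsg : ∀ s t : ℝ, 0 ≤ s → 0 ≤ t → T (s + t) = (T s).comp (T t))
    (hT0 : ∀ x, T 0 x = x) (hT1 : ∀ t : ℝ, 0 ≤ t → ∀ x, ‖T t x‖ ≤ ‖x‖)
    (P : E →L[ℂ] F) (C : ℝ → E →L[ℂ] F) (s : ℝ) (hs : 0 < s)
    (hP : ∀ x, ‖P x‖ ≤ ‖x‖) (hPT : ∀ x, P (T (1 / s) x) = 0)
    (hC : ∀ u h : ℝ, 0 ≤ u → 0 ≤ h → ∀ x, C (u + h) (T h x) = C u x)
    (hC1 : ∀ u : ℝ, 0 ≤ u → ∀ x, ‖C u x‖ ≤ (1 + s * u) * ‖x‖)
    (hPC : ∀ x, ‖x‖ ≤ ‖P x‖ + ‖C 0 x‖) (μ : ℂ) (hμ : μ.re = -s) (x y : E)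
    (hxy : Tendsto (fun h : ℝ => ((h : ℂ)⁻¹) • (T h x - x)) (𝓝[>] 0) (𝓝 y)) :
    ‖x‖ ≤ 19 / s * ‖μ • x - y‖ := by
  -- the sequence of steps
  set hN : ℕ → ℝ := fun N => 1 / (s * ((N : ℝ) + 1)) with hNdef
  have hpos : ∀ N, 0 < hN N := fun N => by simp only [hNdef]; positivity
  have hNle : ∀ N, s * hN N ≤ 1 := by
    intro N
    have h1 : (0:ℝ) ≤ N := Nat.cast_nonneg N
    have : s * hN N = 1 / ((N : ℝ) + 1) := by simp only [hNdef]; field_simp
    rw [this, div_le_one (by linarith)]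
    linarith
  have htend : Tendsto hN atTop (𝓝[>] 0) := by
    rw [tendsto_nhdsWithin_iff]
    refine ⟨?_, Eventually.of_forall fun N => hpos N⟩
    have h1 : Tendsto (fun N : ℕ => s * ((N : ℝ) + 1)) atTop atTop :=
      (tendsto_atTop_add_const_right _ _ tendsto_natCast_atTop_atTop).const_mul_atTop hs
    have h2 := h1.inv_tendsto_atTop
    refine h2.congr (fun N => ?_)
    simp only [hNdef, Pi.inv_apply, one_div]
  set a : ℕ → ℂ := fun N => Complex.exp (μ * hN N) with hadef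
  have ha : ∀ N, ‖a N‖ = Real.exp (-(s * hN N)) := by
    intro N
    simp only [hadef]
    rw [Complex.norm_exp]
    congr 1
    simp [hμ]
  set g : ℕ → E := fun N => ((hN N : ℂ)⁻¹) • (a N • x - T (hN N) x) with hgdef
  have hg : ∀ N, T (hN N) x = a N • x - (hN N : ℂ) • g N := by
    intro N
    simp only [hgdef]
    rw [smul_smul, mul_inv_cancel₀ (by exact_mod_cast (hpos N).ne'), one_smul]
    abel
  have hgt : Tendsto g atTop (𝓝 (μ • x - y)) := by
    have h1 : Tendsto (fun N => ((hN N : ℂ)⁻¹) • (T (hN N) x - x)) atTop (𝓝 y) :=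
      hxy.comp htend
    have h2 : Tendsto (fun N => ((hN N : ℂ)⁻¹) * (a N - 1)) atTop (𝓝 μ) := by
      have h3 : HasDerivAt (fun z : ℂ => Complex.exp (μ * z)) (Complex.exp (μ * 0) * (μ * 1)) 0 :=
        ((hasDerivAt_id (0:ℂ)).const_mul μ).cexp
      have h4 := h3.tendsto_slope
      have h5 : Tendsto (fun N => (hN N : ℂ)) atTop (𝓝[≠] 0) := by
        rw [tendsto_nhdsWithin_iff]
        refine ⟨?_, Eventually.of_forall fun N => ?_⟩
        · have := (Complex.continuous_ofReal.tendsto 0).comp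
            (tendsto_nhds_of_tendsto_nhdsWithin htend)
          rw [Complex.ofReal_zero] at this
          exact this
        · simp only [Set.mem_compl_iff, Set.mem_singleton_iff]
          exact_mod_cast (hpos N).ne'
      have h6 := h4.comp h5
      simp only [mul_zero, Complex.exp_zero, mul_one, one_mul] at h6
      refine h6.congr (fun N => ?_)
      simp [slope, hadef]
    have h3 := (h2.smul_const x).sub h1
    refine h3.congr (fun N => ?_)
    simp only [hgdef, mul_smul, smul_sub, sub_smul, one_smul]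
    abel
  have hbound : ∀ N, ‖x‖ ≤ 19 / s * ‖g N‖ := by
    intro N
    have hgn := norm_nonneg (g N)
    -- part one
    have h1 : ‖P x‖ ≤ 3 / s * ‖g N‖ := by
      have h2 := part_one T hsg hT0 hT1 P hP s (hN N) hs.le (hpos N).le (a N) (ha N) x (g N) (hg N)
        (N + 1)
      have e : ((N + 1 : ℕ) : ℝ) * hN N = 1 / s := by
        simp only [hNdef]; push_cast; field_simp
      have e2 : s * (1 / s) = 1 := by field_simp
      rw [e, hPT, norm_zero, mul_zero, zero_add, e2] at h2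
      refine h2.trans ?_
      have h3 := Real.exp_one_lt_d9
      have h4 : 1 / s * Real.exp 1 ≤ 3 / s := by
        rw [div_mul_eq_mul_div, one_mul]
        gcongr
        linarith
      gcongr
    -- part two
    have h2 : ‖C 0 x‖ ≤ 16 / s * ‖g N‖ := by
      have h3 : ∀ M : ℕ, ‖C 0 x‖ ≤ Real.exp (-(s * (M * hN N))) * ((1 + s * (M * hN N)) * ‖x‖) +
          16 / s * ‖g N‖ := by
        intro M
        have h4 := part_two T C s hs hC hC1 (hN N) (hpos N) (hNle N) (a N) (ha N) x (g N) (hg N) M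
        have h5 := hC1 (M * hN N) (by have := hpos N; positivity) x
        have h6 : 16 / s * (1 - Real.exp (-(s * (M * hN N) / 2))) * ‖g N‖ ≤ 16 / s * ‖g N‖ := by
          have h7 : 1 - Real.exp (-(s * (M * hN N) / 2)) ≤ 1 := by
            have := Real.exp_pos (-(s * (M * hN N) / 2))
            linarith
          have h8 : 16 / s * (1 - Real.exp (-(s * (M * hN N) / 2))) ≤ 16 / s * 1 := by
            gcongr
          rw [mul_one] at h8
          gcongr
        refine h4.trans (add_le_add ?_ h6)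
        gcongr
      have h9 := (exp_mul_tendsto s (hN N) hs (hpos N) ‖x‖).add_const (16 / s * ‖g N‖)
      rw [zero_add] at h9
      exact ge_of_tendsto' h9 h3
    calc ‖x‖ ≤ ‖P x‖ + ‖C 0 x‖ := hPC x
      _ ≤ 3 / s * ‖g N‖ + 16 / s * ‖g N‖ := add_le_add h1 h2
      _ = 19 / s * ‖g N‖ := by ring
  exact ge_of_tendsto' ((hgt.norm).const_mul (19 / s)) hbound

end Pool.Agent.L0h85.Sg
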