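import Mathlib
import Pool.Agent.L0h85.SgAbs

/-!
# Weighted translations on `L²(ℝ)`
-/

open MeasureTheory Filter Topology Set
open scoped ENNReal

namespace Pool.Agent.L0h85.Sg

/-- `L²(ℝ)` -/
abbrev EE : Type := Lp ℂ 2 (volume : Measure ℝ)

/-- a bounded measurable weight -/
structure Wt where
  k : ℝ → ℝ
  meas : Measurable k
  bd : ∃ C, ∀ x, |k x| ≤ C

lemma Wt.memLp (w : Wt) (f : EE) : MemLp (fun x => (w.k x : ℂ) * f x) 2 volume := by
  obtain ⟨C, hC⟩ := w.bd
  refine (Lp.memLp f).of_le_mul (c := C) ?_ ?_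
  · exact (Complex.measurable_ofReal.comp w.meas).aestronglyMeasurable.mul
      (Lp.aestronglyMeasurable f)
  · refine Eventually.of_forall fun x => ?_
    rw [norm_mul, Complex.norm_real, Real.norm_eq_abs]
    exact mul_le_mul_of_nonneg_right (hC x) (norm_nonneg _)

lemma Wt.toLp_norm_le (w : Wt) {C : ℝ} (hC : ∀ x, |w.k x| ≤ C) (f : EE) :
    ‖(w.memLp f).toLp _‖ ≤ C * ‖f‖ := by
  apply Lp.norm_le_mul_norm_of_ae_le_mul
  filter_upwards [(w.memLp f).coeFn_toLp] with x hx
  rw [hx, norm_mul, Complex.norm_real, Real.norm_eq_abs]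
  exact mul_le_mul_of_nonneg_right (hC x) (norm_nonneg _)

/-- multiplication by a weight -/
noncomputable def mulW (w : Wt) : EE →L[ℂ] EE :=
  LinearMap.mkContinuousOfExistsBound
    { toFun := fun f => (w.memLp f).toLp _
      map_add' := fun f g => by
        apply Lp.ext
        filter_upwards [(w.memLp (f + g)).coeFn_toLp, (w.memLp f).coeFn_toLp,
          (w.memLp g).coeFn_toLp, Lp.coeFn_add f g,
          Lp.coeFn_add ((w.memLp f).toLp _) ((w.memLp g).toLp _)] with x h1 h2 h3 h4 h5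
        rw [h1, h5, Pi.add_apply, h2, h3, h4, Pi.add_apply, mul_add]
      map_smul' := fun c f => by
        apply Lp.ext
        filter_upwards [(w.memLp (c • f)).coeFn_toLp, (w.memLp f).coeFn_toLp,
          Lp.coeFn_smul c f, Lp.coeFn_smul c ((w.memLp f).toLp _)] with x h1 h2 h4 h5
        rw [h1, RingHom.id_apply, h5, Pi.smul_apply, h2, h4, Pi.smul_apply, smul_eq_mul,
          smul_eq_mul]
        ring }
    (by
      obtain ⟨C, hC⟩ := w.bd
      exact ⟨C, fun f => w.toLp_norm_le hC f⟩)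

lemma mulW_coe (w : Wt) (f : EE) : ⇑(mulW w f) =ᵐ[volume] fun x => (w.k x : ℂ) * f x :=
  (w.memLp f).coeFn_toLp

lemma mulW_norm_le (w : Wt) {C : ℝ} (hC : ∀ x, |w.k x| ≤ C) (f : EE) : ‖mulW w f‖ ≤ C * ‖f‖ :=
  w.toLp_norm_le hC f

/-- translation -/
noncomputable def trans (u : ℝ) : EE →L[ℂ] EE :=
  (Lp.compMeasurePreservingₗᵢ ℂ (fun x : ℝ => x - u)
    (measurePreserving_sub_right volume u)).toContinuousLinearMap

lemma trans_coe (u : ℝ) (f : EE) : ⇑(trans u f) =ᵐ[volume] fun x => f (x - u) :=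
  Lp.coeFn_compMeasurePreserving f (measurePreserving_sub_right volume u)

lemma trans_norm (u : ℝ) (f : EE) : ‖trans u f‖ = ‖f‖ :=
  Lp.norm_compMeasurePreserving f (measurePreserving_sub_right volume u)

lemma trans_continuous (f : EE) : Continuous fun u : ℝ => trans u f := by
  let g : ℝ → C(ℝ, ℝ) := fun u => ⟨fun x => x - u, by fun_prop⟩
  have hg : Continuous g := by
    have h : Continuous (fun p : ℝ × ℝ => p.2 - p.1) := by fun_prop
    exact (ContinuousMap.curry ⟨_, h⟩).continuous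
  rw [continuous_iff_continuousAt]
  intro u
  exact Tendsto.compMeasurePreservingLp (tendsto_const_nhds (x := f)) (hg.tendsto u)
    (fun a => measurePreserving_sub_right volume a) (measurePreserving_sub_right volume u)
    (by norm_num)

/-- weighted translation -/
noncomputable def W (w : Wt) (u : ℝ) : EE →L[ℂ] EE := (mulW w).comp (trans u)

lemma W_coe (w : Wt) (u : ℝ) (f : EE) :
    ⇑(W w u f) =ᵐ[volume] fun x => (w.k x : ℂ) * f (x - u) := by
  filter_upwards [mulW_coe w (trans u f), trans_coe u f] with x h1 h2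
  show (mulW w (trans u f)) x = _
  rw [h1, h2]

lemma W_norm_le (w : Wt) (u : ℝ) {C : ℝ} (hC : ∀ x, |w.k x| ≤ C) (f : EE) :
    ‖W w u f‖ ≤ C * ‖f‖ := by
  have := mulW_norm_le w hC (trans u f)
  rwa [trans_norm] at this

lemma ae_sub {p : ℝ → Prop} (u : ℝ) (h : ∀ᵐ x ∂(volume : Measure ℝ), p x) :
    ∀ᵐ x ∂(volume : Measure ℝ), p (x - u) :=
  (measurePreserving_sub_right volume u).quasiMeasurePreserving.ae h

lemma W_comp (w w' : Wt) (u v : ℝ) (f : EE) :
    ⇑(W w u (W w' v f)) =ᵐ[volume] fun x => ((w.k x * w'.k (x - u) : ℝ) : ℂ) * f (x - (u + v)) := by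
  filter_upwards [W_coe w u (W w' v f), ae_sub u (W_coe w' v f)] with x h1 h2
  rw [h1, h2]
  push_cast
  rw [show x - u - v = x - (u + v) by ring]
  ring

end Pool.Agent.L0h85.Sg
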