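import Mathlib
import Pool.Agent.L0h85.SgL2

/-!
# The weighted right translation semigroup
-/

open MeasureTheory Filter Topology Set
open scoped ENNReal

namespace Pool.Agent.L0h85.Sg

/-- weight of the semigroup -/
noncomputable def tw (t : ℝ) : Wt where
  k := fun x => if max t 0 ≤ x then (1 + x - max t 0) / (1 + x) else 0
  meas := Measurable.ite measurableSet_Ici (by fun_prop) measurable_const
  bd := ⟨1, fun x => by
    split_ifs with h
    · have h0 : 0 ≤ max t 0 := le_max_right _ _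
      rw [abs_le]
      constructor
      · have : 0 ≤ (1 + x - max t 0) / (1 + x) := div_nonneg (by linarith) (by linarith)
        linarith
      · rw [div_le_one (by linarith)]
        linarith
    · simp⟩

lemma tw_abs (t x : ℝ) : |(tw t).k x| ≤ 1 := by
  show |if max t 0 ≤ x then (1 + x - max t 0) / (1 + x) else 0| ≤ 1
  split_ifs with h
  · have h0 : 0 ≤ max t 0 := le_max_right _ _
    rw [abs_le]
    constructor
    · have : 0 ≤ (1 + x - max t 0) / (1 + x) := div_nonneg (by linarith) (by linarith)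
      linarith
    · rw [div_le_one (by linarith)]
      linarith
  · simp

/-- the semigroup, on `L²(ℝ)` -/
noncomputable def TE (t : ℝ) : EE →L[ℂ] EE := W (tw t) (max t 0)

/-- the indicator of the negative half line -/
noncomputable def wNeg : Wt where
  k := fun x => if x < 0 then 1 else 0
  meas := Measurable.ite measurableSet_Iio measurable_const measurable_const
  bd := ⟨1, fun x => by split_ifs <;> simp⟩

/-- the functions supported by the half line -/
noncomputable def HH : Submodule ℂ EE := (mulW wNeg).ker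

lemma mem_HH (f : EE) : f ∈ HH ↔ ∀ᵐ x ∂(volume : Measure ℝ), x < 0 → f x = 0 := by
  show mulW wNeg f = 0 ↔ _
  constructor
  · intro h
    have h1 := mulW_coe wNeg f
    rw [h] at h1
    filter_upwards [h1, Lp.coeFn_zero ℂ 2 (volume : Measure ℝ)] with x h1 h2 hx
    rw [h2] at h1
    have h3 : wNeg.k x = 1 := if_pos hx
    rw [h3] at h1
    simpa using h1.symm
  · intro h
    apply Lp.ext
    filter_upwards [mulW_coe wNeg f, Lp.coeFn_zero ℂ 2 (volume : Measure ℝ), h] with x h1 h2 h3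
    rw [h1, h2]
    by_cases hx : x < 0
    · rw [h3 hx]; simp
    · have h3 : wNeg.k x = 0 := if_neg hx
      rw [h3]; simp

lemma TE_mem (t : ℝ) (f : EE) : TE t f ∈ HH := by
  rw [mem_HH]
  filter_upwards [W_coe (tw t) (max t 0) f] with x h1 hx
  show (W (tw t) (max t 0) f) x = 0
  rw [h1]
  have h0 : 0 ≤ max t 0 := le_max_right _ _
  have h2 : (tw t).k x = 0 := if_neg (by linarith)
  rw [h2]; simp

instance : CompleteSpace HH :=
  (ContinuousLinearMap.isClosed_ker (mulW wNeg)).completeSpace_coe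

/-- the semigroup -/
noncomputable def TT (t : ℝ) : HH →L[ℂ] HH :=
  ((TE t).comp HH.subtypeL).codRestrict HH (fun f => TE_mem t f)

lemma TT_coe (t : ℝ) (f : HH) : ((TT t f : HH) : EE) = TE t f := rfl

lemma TT_norm (t : ℝ) (f : HH) : ‖TT t f‖ ≤ ‖f‖ := by
  have h := W_norm_le (tw t) (max t 0) (tw_abs t) (f : EE)
  rw [one_mul] at h
  exact h

lemma TT_zero (f : HH) : TT 0 f = f := by
  apply Subtype.ext
  apply Lp.ext
  have hf := (mem_HH f).1 f.2
  filter_upwards [W_coe (tw 0) (max 0 0) (f : EE), hf] with x h1 h2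
  show (W (tw 0) (max 0 0) (f : EE)) x = _
  rw [h1]
  by_cases hx : x < 0
  · have h3 : (tw 0).k x = 0 := if_neg (by simpa using hx)
    rw [h3, h2 hx]; simp
  · push Not at hx
    have h3 : (tw 0).k x = 1 := by
      show (if max (0:ℝ) 0 ≤ x then (1 + x - max (0:ℝ) 0) / (1 + x) else 0) = 1
      rw [if_pos (by simpa using hx)]
      simp only [max_self, sub_zero]
      exact div_self (by linarith)
    rw [h3]; simp

lemma TT_add (s t : ℝ) (hs : 0 ≤ s) (ht : 0 ≤ t) : TT (s + t) = (TT s).comp (TT t) := by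
  ext1 f
  apply Subtype.ext
  apply Lp.ext
  have e1 : max s 0 = s := max_eq_left hs
  have e2 : max t 0 = t := max_eq_left ht
  have e3 : max (s + t) 0 = s + t := max_eq_left (by linarith)
  filter_upwards [W_coe (tw (s + t)) (max (s + t) 0) (f : EE),
    W_comp (tw s) (tw t) (max s 0) (max t 0) (f : EE)] with x h1 h2
  show (W (tw (s + t)) (max (s + t) 0) (f : EE)) x =
    (W (tw s) (max s 0) (W (tw t) (max t 0) (f : EE))) x
  rw [h1, h2, e1, e2, e3]
  congr 2
  show (if max (s + t) 0 ≤ x then (1 + x - max (s + t) 0) / (1 + x) else 0) =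
    (if max s 0 ≤ x then (1 + x - max s 0) / (1 + x) else 0) *
    (if max t 0 ≤ x - s then (1 + (x - s) - max t 0) / (1 + (x - s)) else 0)
  rw [e1, e2, e3]
  by_cases h : s + t ≤ x
  · have hx : s ≤ x := by linarith
    have hx2 : t ≤ x - s := by linarith
    rw [if_pos h, if_pos hx, if_pos hx2]
    have a1 : (1 + x) ≠ 0 := by linarith
    have a2 : (1 + (x - s)) ≠ 0 := by linarith
    field_simp
    ring
  · rw [if_neg h]
    have hx2 : ¬ t ≤ x - s := fun h' => h (by linarith)
    rw [if_neg hx2, mul_zero]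

/-- dominated convergence for multiplication operators -/
lemma mulW_tendsto (w : ℝ → Wt) (t₀ : ℝ) (hC : ∀ t x, |(w t).k x| ≤ 1)
    (h : ∀ᵐ x ∂(volume : Measure ℝ), Tendsto (fun t => (w t).k x) (𝓝 t₀) (𝓝 ((w t₀).k x)))
    (v : EE) : Tendsto (fun t => mulW (w t) v) (𝓝 t₀) (𝓝 (mulW (w t₀) v)) := by
  rw [Lp.tendsto_Lp_iff_tendsto_eLpNorm']
  have hform : ∀ t, eLpNorm (⇑(mulW (w t) v) - ⇑(mulW (w t₀) v)) 2 volume =
      (∫⁻ x, ‖(((w t).k x - (w t₀).k x : ℝ) : ℂ) * v x‖ₑ ^ (2:ℝ)) ^ (1 / (2:ℝ)) := by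
    intro t
    rw [eLpNorm_eq_lintegral_rpow_enorm_toReal (by norm_num) (by norm_num)]
    simp only [ENNReal.toReal_ofNat]
    congr 1
    apply lintegral_congr_ae
    filter_upwards [mulW_coe (w t) v, mulW_coe (w t₀) v] with x h1 h2
    rw [Pi.sub_apply, h1, h2]
    push_cast
    rw [sub_mul]
  simp only [hform]
  have h0 : (0 : ℝ≥0∞) = (∫⁻ _x : ℝ, (0 : ℝ≥0∞)) ^ (1 / (2:ℝ)) := by simp
  rw [h0]
  apply Tendsto.ennrpow_const
  apply tendsto_lintegral_filter_of_dominated_convergence' (fun x => (2 * ‖v x‖ₑ) ^ (2:ℝ))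
  · refine Eventually.of_forall fun t => ?_
    have h1 : AEStronglyMeasurable (fun x => (((w t).k x - (w t₀).k x : ℝ) : ℂ) * v x) volume :=
      (Complex.measurable_ofReal.comp ((w t).meas.sub (w t₀).meas)).aestronglyMeasurable.mul
        (Lp.aestronglyMeasurable v)
    exact h1.enorm.pow_const _
  · refine Eventually.of_forall fun t => Eventually.of_forall fun x => ?_
    apply ENNReal.rpow_le_rpow _ (by norm_num)
    rw [enorm_mul]
    gcongr
    rw [← ofReal_norm, Complex.norm_real, Real.norm_eq_abs]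
    have : |(w t).k x - (w t₀).k x| ≤ 2 := by
      have a := abs_le.1 (hC t x)
      have b := abs_le.1 (hC t₀ x)
      rw [abs_le]
      constructor <;> linarith
    calc ENNReal.ofReal |(w t).k x - (w t₀).k x| ≤ ENNReal.ofReal 2 := ENNReal.ofReal_le_ofReal this
      _ = 2 := by simp
  · have h2 := eLpNorm_lt_top_iff_lintegral_rpow_enorm_lt_top (p := 2) (μ := volume) (f := v)
      (by norm_num) (by norm_num)
    have h3 := h2.1 (Lp.eLpNorm_lt_top v)
    simp only [ENNReal.toReal_ofNat] at h3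
    have h4 : ∀ x, (2 * ‖v x‖ₑ) ^ (2:ℝ) = 4 * ‖v x‖ₑ ^ (2:ℝ) := by
      intro x
      rw [ENNReal.mul_rpow_of_nonneg _ _ (by norm_num)]
      congr 1
      norm_num
    simp only [h4]
    rw [lintegral_const_mul' _ _ (by norm_num)]
    exact (ENNReal.mul_lt_top (by norm_num) h3).ne
  · filter_upwards [h] with x hx
    have h4 : Tendsto (fun t => (((w t).k x - (w t₀).k x : ℝ) : ℂ) * v x) (𝓝 t₀) (𝓝 0) := by
      have h5 : Tendsto (fun t => (w t).k x - (w t₀).k x) (𝓝 t₀) (𝓝 0) := by
        simpa using hx.sub_const ((w t₀).k x)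
      have h6 := ((Complex.continuous_ofReal.tendsto 0).comp h5).mul_const (v x)
      simpa using h6
    have h7 := (continuous_enorm.tendsto (0:ℂ)).comp h4
    have h8 := h7.ennrpow_const (2:ℝ)
    simpa using h8


lemma tw_tendsto (t₀ : ℝ) : ∀ᵐ x ∂(volume : Measure ℝ),
    Tendsto (fun t => (tw t).k x) (𝓝 t₀) (𝓝 ((tw t₀).k x)) := by
  have h : ∀ᵐ x ∂(volume : Measure ℝ), x ≠ max t₀ 0 := by
    rw [ae_iff]; simp
  filter_upwards [h] with x hx
  have hr : Tendsto (fun t : ℝ => max t 0) (𝓝 t₀) (𝓝 (max t₀ 0)) :=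
    (continuous_id.max continuous_const).tendsto t₀
  show Tendsto (fun t => if max t 0 ≤ x then (1 + x - max t 0) / (1 + x) else 0) (𝓝 t₀)
    (𝓝 (if max t₀ 0 ≤ x then (1 + x - max t₀ 0) / (1 + x) else 0))
  rcases lt_or_gt_of_ne hx with h1 | h1
  · rw [if_neg (not_le.2 h1)]
    refine tendsto_const_nhds.congr' ?_
    filter_upwards [hr.eventually (lt_mem_nhds h1)] with t ht
    rw [if_neg (not_le.2 ht)]
  · rw [if_pos h1.le]
    have h2 : Tendsto (fun t : ℝ => (1 + x - max t 0) / (1 + x)) (𝓝 t₀)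
        (𝓝 ((1 + x - max t₀ 0) / (1 + x))) := (hr.const_sub (1 + x)).div_const _
    refine h2.congr' ?_
    filter_upwards [hr.eventually (gt_mem_nhds h1)] with t ht
    rw [if_pos ht.le]

lemma TE_continuous (f : EE) : Continuous fun t : ℝ => TE t f := by
  rw [continuous_iff_continuousAt]
  intro t₀
  have h1 : Tendsto (fun t : ℝ => trans (max t 0) f) (𝓝 t₀) (𝓝 (trans (max t₀ 0) f)) :=
    ((trans_continuous f).comp (continuous_id.max continuous_const)).tendsto t₀
  have h2 := mulW_tendsto tw t₀ tw_abs (tw_tendsto t₀) (trans (max t₀ 0) f)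
  show Tendsto (fun t : ℝ => mulW (tw t) (trans (max t 0) f)) (𝓝 t₀)
    (𝓝 (mulW (tw t₀) (trans (max t₀ 0) f)))
  have h3 : Tendsto (fun t : ℝ => mulW (tw t) (trans (max t 0) f - trans (max t₀ 0) f)) (𝓝 t₀)
      (𝓝 0) := by
    apply squeeze_zero_norm (a := fun t => ‖trans (max t 0) f - trans (max t₀ 0) f‖)
    · intro t
      have := mulW_norm_le (tw t) (tw_abs t) (trans (max t 0) f - trans (max t₀ 0) f)
      rwa [one_mul] at this
    · have := (h1.sub_const (trans (max t₀ 0) f)).norm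
      simpa using this
  have h4 := h3.add h2
  rw [zero_add] at h4
  refine h4.congr (fun t => ?_)
  rw [map_sub]
  abel

lemma TT_continuous (f : HH) : Continuous fun t : ℝ => TT t f :=
  Continuous.subtype_mk (TE_continuous (f : EE)) _

/-- indicator of `(-∞, L)` -/
noncomputable def wP (L : ℝ) : Wt where
  k := fun x => if x < L then 1 else 0
  meas := Measurable.ite measurableSet_Iio measurable_const measurable_const
  bd := ⟨1, fun x => by split_ifs <;> simp⟩

lemma wP_abs (L x : ℝ) : |(wP L).k x| ≤ 1 := by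
  show |if x < L then (1:ℝ) else 0| ≤ 1
  split_ifs <;> simp

/-- restriction to `(-∞, L)` -/
noncomputable def PP (L : ℝ) : HH →L[ℂ] EE := (W (wP L) 0).comp HH.subtypeL

lemma wC_aux (L u x : ℝ) (hL : 0 < L) :
    |if L ≤ x then (1 + x + max u 0) / (1 + x) else 0| ≤ 1 + 1 / L * max u 0 := by
  have h0 : 0 ≤ max u 0 := le_max_right _ _
  split_ifs with h
  · have hx : 0 < 1 + x := by linarith
    rw [abs_of_nonneg (by positivity)]
    have h1 : (1 + x + max u 0) / (1 + x) = 1 + 1 / (1 + x) * max u 0 := by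
      field_simp
    rw [h1]
    have h2 : 1 / (1 + x) ≤ 1 / L := one_div_le_one_div_of_le hL (by linarith)
    nlinarith
  · rw [abs_zero]; positivity

/-- weight of the left inverses -/
noncomputable def wC (L : ℝ) (hL : 0 < L) (u : ℝ) : Wt where
  k := fun x => if L ≤ x then (1 + x + max u 0) / (1 + x) else 0
  meas := Measurable.ite measurableSet_Ici (by fun_prop) measurable_const
  bd := ⟨1 + 1 / L * max u 0, fun x => wC_aux L u x hL⟩

/-- the left inverses of the semigroup, followed by the restriction to `[L, ∞)` -/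
noncomputable def CC (L : ℝ) (hL : 0 < L) (u : ℝ) : HH →L[ℂ] EE :=
  (W (wC L hL u) (-u)).comp HH.subtypeL

lemma PP_norm (L : ℝ) (f : HH) : ‖PP L f‖ ≤ ‖f‖ := by
  have h := W_norm_le (wP L) 0 (wP_abs L) (f : EE)
  rw [one_mul] at h
  exact h

lemma PP_TT (L : ℝ) (hL : 0 < L) (f : HH) : PP L (TT L f) = 0 := by
  apply Lp.ext
  filter_upwards [W_comp (wP L) (tw L) 0 (max L 0) (f : EE), Lp.coeFn_zero ℂ 2 (volume : Measure ℝ)]
    with x h1 h2
  show (W (wP L) 0 (W (tw L) (max L 0) (f : EE))) x = _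
  rw [h1, h2]
  have h3 : (wP L).k x * (tw L).k (x - 0) = 0 := by
    show (if x < L then (1:ℝ) else 0) *
      (if max L 0 ≤ x - 0 then (1 + (x - 0) - max L 0) / (1 + (x - 0)) else 0) = 0
    rw [max_eq_left hL.le, sub_zero]
    by_cases h : x < L
    · rw [if_neg (not_le.2 h), mul_zero]
    · rw [if_neg h, zero_mul]
  rw [h3]; simp

lemma CC_norm (L : ℝ) (hL : 0 < L) (u : ℝ) (hu : 0 ≤ u) (f : HH) :
    ‖CC L hL u f‖ ≤ (1 + 1 / L * u) * ‖f‖ := by
  have h := W_norm_le (wC L hL u) (-u) (C := 1 + 1 / L * u) (fun x => by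
    have := wC_aux L u x hL
    rw [max_eq_left hu] at this
    show |if L ≤ x then (1 + x + max u 0) / (1 + x) else 0| ≤ _
    rw [max_eq_left hu]
    exact this) (f : EE)
  exact h

lemma CC_TT (L : ℝ) (hL : 0 < L) (u h : ℝ) (hu : 0 ≤ u) (hh : 0 ≤ h) (f : HH) :
    CC L hL (u + h) (TT h f) = CC L hL u f := by
  apply Lp.ext
  filter_upwards [W_comp (wC L hL (u + h)) (tw h) (-(u + h)) (max h 0) (f : EE),
    W_coe (wC L hL u) (-u) (f : EE)] with x h1 h2
  show (W (wC L hL (u + h)) (-(u + h)) (W (tw h) (max h 0) (f : EE))) x =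
    (W (wC L hL u) (-u) (f : EE)) x
  rw [h1, h2]
  have e1 : max h 0 = h := max_eq_left hh
  have e2 : max (u + h) 0 = u + h := max_eq_left (by linarith)
  have e3 : max u 0 = u := max_eq_left hu
  have e4 : x - (-(u + h) + max h 0) = x - -u := by rw [e1]; ring
  rw [e4]
  congr 2
  show (if L ≤ x then (1 + x + max (u + h) 0) / (1 + x) else 0) *
    (if max h 0 ≤ x - -(u + h) then (1 + (x - -(u + h)) - max h 0) / (1 + (x - -(u + h))) else 0)
    = (if L ≤ x then (1 + x + max u 0) / (1 + x) else 0)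
  rw [e1, e2, e3]
  by_cases hx : L ≤ x
  · rw [if_pos hx, if_pos hx, if_pos (by linarith)]
    have a1 : (1 + x) ≠ 0 := by linarith
    have a2 : (1 + (x - -(u + h))) ≠ 0 := by linarith
    field_simp
    ring
  · rw [if_neg hx, if_neg hx, zero_mul]

lemma PP_CC (L : ℝ) (hL : 0 < L) (f : HH) : ‖f‖ ≤ ‖PP L f‖ + ‖CC L hL 0 f‖ := by
  have h : (f : EE) = PP L f + CC L hL 0 f := by
    apply Lp.ext
    filter_upwards [W_coe (wP L) 0 (f : EE), W_coe (wC L hL 0) (-0) (f : EE),
      Lp.coeFn_add (PP L f) (CC L hL 0 f)] with x h1 h2 h3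
    rw [h3, Pi.add_apply]
    change _ = (W (wP L) 0 (f : EE)) x + (W (wC L hL 0) (-0) (f : EE)) x
    rw [h1, h2]
    simp only [neg_zero, sub_zero]
    by_cases hx : x < L
    · have a1 : (wP L).k x = 1 := if_pos hx
      have a2 : (wC L hL 0).k x = 0 := if_neg (not_le.2 hx)
      rw [a1, a2]; simp
    · have a1 : (wP L).k x = 0 := if_neg hx
      have a2 : (wC L hL 0).k x = 1 := by
        show (if L ≤ x then (1 + x + max 0 0) / (1 + x) else 0) = 1
        rw [if_pos (not_lt.1 hx)]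
        simp only [max_self, add_zero]
        exact div_self (by linarith [not_lt.1 hx])
      rw [a1, a2]; simp
  calc ‖f‖ = ‖(f : EE)‖ := rfl
    _ = ‖PP L f + CC L hL 0 f‖ := by rw [← h]
    _ ≤ _ := norm_add_le _ _

/-- the resolvent lower bound -/
lemma resolvent_bound (x y : HH)
    (hxy : Tendsto (fun h : ℝ => ((h : ℂ)⁻¹) • (TT h x - x)) (𝓝[>] 0) (𝓝 y))
    (μ : ℂ) (hμ : μ.re < 0) : 1 / 19 * |μ.re| * ‖x‖ ≤ ‖μ • x - y‖ := by
  have hs : 0 < -μ.re := by linarith
  have hL : 0 < 1 / (-μ.re) := by positivity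
  have h := abs_bound TT TT_add TT_zero (fun t _ => TT_norm t) (PP (1 / (-μ.re)))
    (CC (1 / (-μ.re)) hL) (-μ.re) hs (PP_norm _) (PP_TT _ hL)
    (fun u h hu hh f => CC_TT _ hL u h hu hh f)
    (fun u hu f => by
      have := CC_norm _ hL u hu f
      rwa [one_div_one_div] at this)
    (PP_CC _ hL) μ (by ring) x y hxy
  rw [abs_of_neg hμ]
  calc 1 / 19 * -μ.re * ‖x‖ ≤ 1 / 19 * -μ.re * (19 / -μ.re * ‖μ • x - y‖) := by gcongr
    _ = ‖μ • x - y‖ := by
      have : μ.re ≠ 0 := hμ.ne
      field_simp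

/-- the indicator function of `(0, 1]` -/
noncomputable def e01 : EE := indicatorConstLp 2 (measurableSet_Ioc (a := (0:ℝ)) (b := 1))
  (by simp) (1 : ℂ)

lemma e01_mem : e01 ∈ HH := by
  rw [mem_HH]
  filter_upwards [indicatorConstLp_coeFn (p := 2) (μ := (volume : Measure ℝ))
    (hs := measurableSet_Ioc (a := (0:ℝ)) (b := 1)) (hμs := by simp) (c := (1:ℂ))] with x hx h0
  show (indicatorConstLp 2 (measurableSet_Ioc (a := (0:ℝ)) (b := 1)) _ (1 : ℂ)) x = 0
  rw [hx, Set.indicator_of_notMem]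
  simp only [mem_Ioc, not_and]
  intro h; linarith

lemma e01_norm : ‖e01‖ = 1 := by
  unfold e01
  rw [norm_indicatorConstLp (by norm_num) (by norm_num)]
  simp

lemma TE_e01 (t : ℝ) (ht : 0 ≤ t) : ‖TE t e01‖ ≤ 2 / (1 + t) := by
  have h : ‖TE t e01‖ ≤ 2 / (1 + t) * ‖trans t e01‖ := by
    apply Lp.norm_le_mul_norm_of_ae_le_mul
    have e1 : max t 0 = t := max_eq_left ht
    have hind := indicatorConstLp_coeFn (p := 2) (μ := (volume : Measure ℝ))
      (hs := measurableSet_Ioc (a := (0:ℝ)) (b := 1)) (hμs := by simp) (c := (1:ℂ))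
    filter_upwards [W_coe (tw t) (max t 0) e01, trans_coe t e01, ae_sub t hind] with x h1 h2 h3
    show ‖(W (tw t) (max t 0) e01) x‖ ≤ _
    rw [h1, h2, e1]
    have h4 : e01 (x - t) = (Ioc (0:ℝ) 1).indicator (fun _ => (1:ℂ)) (x - t) := h3
    rw [h4]
    by_cases hx : x - t ∈ Ioc (0:ℝ) 1
    · rw [Set.indicator_of_mem hx]
      simp only [mul_one, norm_one, Complex.norm_real, Real.norm_eq_abs]
      show |if max t 0 ≤ x then (1 + x - max t 0) / (1 + x) else 0| ≤ 2 / (1 + t)
      obtain ⟨a1, a2⟩ := hx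
      rw [e1, if_pos (by linarith), abs_of_nonneg (div_nonneg (by linarith) (by linarith))]
      rw [div_le_div_iff₀ (by linarith) (by linarith)]
      nlinarith
    · rw [Set.indicator_of_notMem hx]
      simp
  rwa [trans_norm, e01_norm, mul_one] at h

end Pool.Agent.L0h85.Sg
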