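import Mathlib

/-!
# Tree-shifts of finite type attached to a relation

Helper file for `MP_29bdbb_an`.
-/

open Filter Topology

namespace Pool.Agent.L0h85.TreeShift

/-- Labelled trees: maps `Σ^* → 𝒜`, `Σ = Fin d`, `Σ^* = List (Fin d)`. -/
abbrev LTree (d : ℕ) (𝒜 : Type) := List (Fin d) → 𝒜

/-- `Δ_n`: the nodes `w` with `|w| ≤ n - 1`. -/
abbrev Delta (d n : ℕ) := {w : List (Fin d) // w.length < n}

/-- `n`-blocks. -/
abbrev Block (d : ℕ) (𝒜 : Type) (n : ℕ) := Delta d n → 𝒜

/-- The `n`-block of `t` at the node `v`: `w ↦ t (v w)`. -/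
def blockAt {d : ℕ} {𝒜 : Type} (t : LTree d 𝒜) (v : List (Fin d)) (n : ℕ) : Block d 𝒜 n :=
  fun w => t (v ++ w.1)

/-- The tree-shift `X_F` of the labelled trees in which no block of `F` occurs at any node. -/
def treeShift {d : ℕ} {𝒜 : Type} (F : Set (Σ n : ℕ, Block d 𝒜 n)) : Set (LTree d 𝒜) :=
  {t | ∀ (v : List (Fin d)) (n : ℕ), (⟨n, blockAt t v n⟩ : Σ n : ℕ, Block d 𝒜 n) ∉ F}

/-- `B_n(X)`: the `n`-blocks occurring in elements of `X`. -/
def blocks {d : ℕ} {𝒜 : Type} (X : Set (LTree d 𝒜)) (n : ℕ) : Set (Block d 𝒜 n) :=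
  {u | ∃ t ∈ X, ∃ v : List (Fin d), blockAt t v n = u}

instance (d n : ℕ) : Finite (Delta d n) := List.finite_length_lt (Fin d) n

section Chains

variable {β : Type} [Fintype β] (R : β → β → Prop)

/-- the words `w` of length `m` such that `b :: w` is an `R`-chain. -/
noncomputable def chains : ℕ → β → Finset (List β)
  | 0, _ => {[]}
  | (m+1), b => by
      classical
      exact (Finset.univ.filter (fun j => R b j)).biUnion
        (fun j => (chains m j).image (List.cons j))

lemma mem_chains {m : ℕ} {b : β} {w : List β} :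
    w ∈ chains R m b ↔ w.length = m ∧ List.IsChain R (b :: w) := by
  induction m generalizing b w with
  | zero =>
    simp only [chains, Finset.mem_singleton, List.length_eq_zero_iff]
    constructor
    · rintro rfl; simp
    · rintro ⟨h, -⟩; exact h
  | succ m ih =>
    simp only [chains, Finset.mem_biUnion, Finset.mem_filter, Finset.mem_univ, true_and,
      Finset.mem_image]
    constructor
    · rintro ⟨j, hj, w', hw', rfl⟩
      rw [ih] at hw'
      refine ⟨by simp [hw'.1], ?_⟩
      rw [List.isChain_cons_cons]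
      exact ⟨hj, hw'.2⟩
    · rintro ⟨hl, hc⟩
      cases w with
      | nil => simp at hl
      | cons j w' =>
        rw [List.isChain_cons_cons] at hc
        exact ⟨j, hc.1, w', (ih).2 ⟨by simpa using hl, hc.2⟩, rfl⟩

lemma card_chains_zero (b : β) : (chains R 0 b).card = 1 := by simp [chains]

open Classical in
lemma card_chains_succ (m : ℕ) (b : β) :
    (chains R (m+1) b).card = ∑ j ∈ Finset.univ.filter (fun j => R b j), (chains R m j).card := by
  have h1 : chains R (m+1) b = (Finset.univ.filter (fun j => R b j)).biUnion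
        (fun j => (chains R m j).image (List.cons j)) := by
    simp only [chains]
  rw [h1, Finset.card_biUnion]
  · refine Finset.sum_congr rfl fun j _ => ?_
    exact Finset.card_image_of_injective _ (List.cons_injective)
  · intro x _ y _ hxy
    rw [Function.onFun, Finset.disjoint_left]
    intro w hw hw'
    simp only [Finset.mem_image] at hw hw'
    obtain ⟨w1, _, rfl⟩ := hw
    obtain ⟨w2, _, h⟩ := hw'
    apply hxy
    have := (List.cons.inj h).1
    exact this.symm

end Chains

section Rel

variable {d : ℕ} (R : Fin d → Fin d → Prop)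

/-- The rule: a child `i` of a node labelled `some (b, ε)` is labelled `some (i, ε')` if `R b i`, and
`none` otherwise; all children of a node labelled `none` are labelled `none`. -/
def Allowed (a : Option (Fin d × Bool)) (i : Fin d) (a' : Option (Fin d × Bool)) : Prop :=
  match a with
  | none => a' = none
  | some (b, _) => (R b i ∧ ∃ ε, a' = some (i, ε)) ∨ (¬ R b i ∧ a' = none)

/-- The forbidden `2`-blocks. -/
def forb : Set (Σ n : ℕ, Block d (Option (Fin d × Bool)) n) :=
  {p | ∃ u : Block d (Option (Fin d × Bool)) 2, p = ⟨2, u⟩ ∧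
    ∃ i : Fin d, ¬ Allowed R (u ⟨[], by simp⟩) i (u ⟨[i], by simp⟩)}

lemma forb_finite : (forb R).Finite := by
  have h : forb R ⊆ Set.range (fun u : Block d (Option (Fin d × Bool)) 2 =>
      (⟨2, u⟩ : Σ n : ℕ, Block d (Option (Fin d × Bool)) n)) := by
    rintro p ⟨u, rfl, -⟩
    exact ⟨u, rfl⟩
  exact (Set.finite_range _).subset h

lemma forb_size {p : Σ n : ℕ, Block d (Option (Fin d × Bool)) n} (hp : p ∈ forb R) : p.1 = 2 := by
  obtain ⟨u, rfl, -⟩ := hp
  rfl

lemma mem_shift {t : LTree d (Option (Fin d × Bool))} :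
    t ∈ treeShift (forb R) ↔ ∀ (v : List (Fin d)) (i : Fin d), Allowed R (t v) i (t (v ++ [i])) := by
  constructor
  · intro ht v i
    by_contra hcon
    apply ht v 2
    refine ⟨blockAt t v 2, rfl, i, ?_⟩
    simpa [blockAt] using hcon
  · intro h v n hmem
    obtain ⟨u, hu, i, hi⟩ := hmem
    have hn : n = 2 := congrArg Sigma.fst hu
    subst hn
    have hu' : blockAt t v 2 = u := by
      simpa using hu
    subst hu'
    apply hi
    simpa [blockAt] using h v i

/-- The tree with root letter `b` and bits `e`. -/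
noncomputable def mk (b : Fin d) (e : List (Fin d) → Bool) : LTree d (Option (Fin d × Bool)) :=
  fun w => by
    classical
    exact if List.IsChain R (b :: w) then some ((b :: w).getLast (by simp), e w) else none

open Classical in
lemma mk_def (b : Fin d) (e : List (Fin d) → Bool) (w : List (Fin d)) :
    mk R b e w = if List.IsChain R (b :: w) then some ((b :: w).getLast (by simp), e w) else none :=
  rfl

lemma chain_snoc (b : Fin d) (v : List (Fin d)) (i : Fin d) :
    List.IsChain R (b :: (v ++ [i])) ↔
      List.IsChain R (b :: v) ∧ R ((b :: v).getLast (by simp)) i := by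
  rw [← List.cons_append, List.isChain_append]
  constructor
  · rintro ⟨h1, -, h3⟩
    refine ⟨h1, h3 _ ?_ i ?_⟩
    · rw [List.getLast?_eq_some_getLast (by simp)]; simp
    · simp
  · rintro ⟨h1, h2⟩
    refine ⟨h1, by simp, ?_⟩
    intro x hx y hy
    rw [List.getLast?_eq_some_getLast (by simp)] at hx
    simp only [Option.mem_def, Option.some.injEq] at hx
    simp only [List.head?_cons, Option.mem_def, Option.some.injEq] at hy
    subst hx; subst hy
    exact h2

lemma mk_mem (b : Fin d) (e : List (Fin d) → Bool) : mk R b e ∈ treeShift (forb R) := by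
  classical
  rw [mem_shift]
  intro v i
  rw [mk_def, mk_def]
  by_cases h : List.IsChain R (b :: v)
  · rw [if_pos h]
    by_cases h' : List.IsChain R (b :: (v ++ [i]))
    · rw [if_pos h']
      left
      refine ⟨((chain_snoc R b v i).1 h').2, e (v ++ [i]), ?_⟩
      simp [List.getLast_cons]
    · rw [if_neg h']
      right
      refine ⟨?_, rfl⟩
      intro hR
      exact h' ((chain_snoc R b v i).2 ⟨h, hR⟩)
  · rw [if_neg h]
    have h' : ¬ List.IsChain R (b :: (v ++ [i])) := fun hc => h ((chain_snoc R b v i).1 hc).1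
    rw [if_neg h']
    rfl

/-- every element of the shift is constant `none` or of the form `mk b e`. -/
lemma eq_mk_or {t : LTree d (Option (Fin d × Bool))} (ht : t ∈ treeShift (forb R)) :
    (t = fun _ => none) ∨ ∃ b e, t = mk R b e := by
  classical
  rw [mem_shift] at ht
  rcases h0 : t [] with _ | ⟨b, ε⟩
  · left
    funext w
    induction w using List.reverseRecOn with
    | nil => exact h0
    | append_singleton v i ih =>
      have := ht v i
      rw [ih] at this
      exact this
  · right
    refine ⟨b, fun w => match t w with | none => false | some p => p.2, ?_⟩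
    funext w
    induction w using List.reverseRecOn with
    | nil => simp [mk_def, h0]
    | append_singleton v i ih =>
      have h1 := ht v i
      rw [mk_def] at ih ⊢
      by_cases h : List.IsChain R (b :: v)
      · rw [if_pos h] at ih
        rw [ih] at h1
        rcases h1 with ⟨hR, ε', h2⟩ | ⟨hR, h2⟩
        · rw [if_pos ((chain_snoc R b v i).2 ⟨h, hR⟩), h2]
          simp [List.getLast_cons]
        · rw [if_neg (fun hc => hR ((chain_snoc R b v i).1 hc).2), h2]
      · rw [if_neg h] at ih
        rw [ih] at h1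
        have h' : ¬ List.IsChain R (b :: (v ++ [i])) := fun hc => h ((chain_snoc R b v i).1 hc).1
        rw [if_neg h']
        exact h1

lemma shift_mem {t : LTree d (Option (Fin d × Bool))} (ht : t ∈ treeShift (forb R))
    (v : List (Fin d)) : (fun w => t (v ++ w)) ∈ treeShift (forb R) := by
  rw [mem_shift] at ht ⊢
  intro w i
  have := ht (v ++ w) i
  simpa [List.append_assoc] using this

lemma blocks_eq (n : ℕ) : blocks (treeShift (forb R)) n =
    {u | (u = fun _ => none) ∨ ∃ b e, u = fun w : Delta d n => mk R b e w.1} := by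
  ext u
  constructor
  · rintro ⟨t, ht, v, rfl⟩
    rcases eq_mk_or R (shift_mem R ht v) with h | ⟨b, e, h⟩
    · left
      funext w
      exact congrFun h w.1
    · right
      refine ⟨b, e, ?_⟩
      funext w
      exact congrFun h w.1
  · rintro (h | ⟨b, e, h⟩)
    · refine ⟨fun _ => none, ?_, [], ?_⟩
      · rw [mem_shift]; intro v i; rfl
      · rw [h]; funext w; rfl
    · refine ⟨mk R b e, mk_mem R b e, [], ?_⟩
      rw [h]; funext w; rfl

/-- lower bound. -/
lemma two_pow_le (n : ℕ) (b : Fin d) :
    2 ^ (chains R n b).card ≤ (blocks (treeShift (forb R)) (n+1)).ncard := by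
  classical
  let f : (↥(chains R n b) → Bool) → Block d (Option (Fin d × Bool)) (n+1) :=
    fun e w => mk R b (fun v => if h : v ∈ chains R n b then e ⟨v, h⟩ else false) w.1
  have hf : Function.Injective f := by
    intro e e' hee
    funext ⟨v, hv⟩
    have hv' := (mem_chains R).1 hv
    have h1 := congrFun hee ⟨v, by omega⟩
    simp only [f, mk_def, if_pos hv'.2, dif_pos hv, Option.some.injEq, Prod.mk.injEq,
      true_and] at h1
    exact h1
  have hr : Set.range f ⊆ blocks (treeShift (forb R)) (n+1) := by
    rintro _ ⟨e, rfl⟩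
    rw [blocks_eq]
    right
    exact ⟨b, _, rfl⟩
  have hc : (Set.range f).ncard = 2 ^ (chains R n b).card := by
    rw [Set.ncard_eq_toFinset_card', Set.toFinset_range, Finset.card_image_of_injective _ hf,
      Finset.card_univ]
    simp
  rw [← hc]
  exact Set.ncard_le_ncard hr (Set.toFinite _)

/-- upper bound. -/
lemma ncard_blocks_le (n : ℕ) :
    (blocks (treeShift (forb R)) n).ncard ≤
      (1 + d) * 2 ^ (∑ m ∈ Finset.range n, ∑ b, (chains R m b).card) := by
  classical
  let N := ∑ m ∈ Finset.range n, ∑ b, (chains R m b).card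
  -- index type of words
  let I : Fin d → Finset (List (Fin d)) := fun b => (Finset.range n).biUnion fun m => chains R m b
  have hI : ∀ b, (I b).card ≤ N := by
    intro b
    calc (I b).card ≤ ∑ m ∈ Finset.range n, (chains R m b).card := Finset.card_biUnion_le
      _ ≤ N := Finset.sum_le_sum fun m _ =>
          Finset.single_le_sum (f := fun b => (chains R m b).card) (fun _ _ => Nat.zero_le _)
            (Finset.mem_univ b)
  let G : (b : Fin d) → (↥(I b) → Bool) → Block d (Option (Fin d × Bool)) n :=
    fun b e w => mk R b (fun v => if h : v ∈ I b then e ⟨v, h⟩ else false) w.1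
  have hsub : blocks (treeShift (forb R)) n ⊆
      ({fun _ => none} : Set (Block d (Option (Fin d × Bool)) n)) ∪ ⋃ b, Set.range (G b) := by
    rw [blocks_eq]
    rintro u (h | ⟨b, e, h⟩)
    · left; exact h
    · right
      rw [Set.mem_iUnion]
      refine ⟨b, fun v => e v.1, ?_⟩
      rw [h]
      funext w
      simp only [G, mk_def]
      by_cases hc : List.IsChain R (b :: w.1)
      · rw [if_pos hc, if_pos hc]
        have hw : w.1 ∈ I b := by
          simp only [I, Finset.mem_biUnion, Finset.mem_range]
          exact ⟨w.1.length, w.2, (mem_chains R).2 ⟨rfl, hc⟩⟩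
        rw [dif_pos hw]
      · rw [if_neg hc, if_neg hc]
  have hG : ∀ b, (Set.range (G b)).ncard ≤ 2 ^ N := by
    intro b
    calc (Set.range (G b)).ncard ≤ Nat.card (↥(I b) → Bool) := by
            rw [← Set.image_univ]
            refine (Set.ncard_image_le (Set.toFinite _)).trans ?_
            rw [Set.ncard_univ]
      _ = 2 ^ (I b).card := by simp
      _ ≤ 2 ^ N := Nat.pow_le_pow_right (by norm_num) (hI b)
  calc (blocks (treeShift (forb R)) n).ncard
      ≤ (({fun _ => none} : Set (Block d (Option (Fin d × Bool)) n)) ∪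
          ⋃ b, Set.range (G b)).ncard := Set.ncard_le_ncard hsub (Set.toFinite _)
    _ ≤ 1 + (⋃ b, Set.range (G b)).ncard := by
        refine (Set.ncard_union_le _ _).trans ?_
        rw [Set.ncard_singleton]
    _ ≤ 1 + ∑ b : Fin d, (Set.range (G b)).ncard := by
        gcongr
        exact Set.ncard_iUnion_le_of_fintype _
    _ ≤ 1 + ∑ b : Fin d, 2 ^ N := by
        gcongr with b
        exact hG b
    _ = 1 + d * 2 ^ N := by simp
    _ ≤ (1 + d) * 2 ^ N := by
        have : 1 ≤ 2 ^ N := Nat.one_le_two_pow
        nlinarith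

end Rel

lemma analysis {a P : ℕ → ℝ} {h c1 c2 c3 : ℝ} (hP : ∀ m, 1 ≤ P m)
    (hlim : Tendsto (fun m : ℕ => Real.log (P m) / m) atTop (𝓝 h))
    (hc1 : 0 < c1) (hc2 : 0 ≤ c2) (hc3 : 0 ≤ c3) (h1 : ∀ n, c1 * P n ≤ a (n+1))
    (h2 : ∀ n, a n ≤ c2 + c3 * ∑ m ∈ Finset.range n, P m) :
    Tendsto (fun n : ℕ => Real.log (a n) / n) atTop (𝓝 h) := by
  have hh : 0 ≤ h := by
    refine ge_of_tendsto' hlim fun m => ?_
    exact div_nonneg (Real.log_nonneg (hP m)) (Nat.cast_nonneg m)
  rw [← tendsto_add_atTop_iff_nat 1, tendsto_order]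
  have hapos : ∀ n, 0 < a (n+1) := fun n =>
    lt_of_lt_of_le (mul_pos hc1 (lt_of_lt_of_le one_pos (hP n))) (h1 n)
  constructor
  · -- lower bound
    intro b hb
    have e1 : Tendsto (fun n : ℕ => (Real.log c1 + Real.log (P n)) / ((n : ℝ) + 1)) atTop (𝓝 h) := by
      have e2 : Tendsto (fun n : ℕ => Real.log c1 / ((n : ℝ) + 1)) atTop (𝓝 0) :=
        ((tendsto_const_div_atTop_nhds_zero_nat (Real.log c1)).comp (tendsto_add_atTop_nat 1)).congr
          (fun n => by simp)
      have e3 : Tendsto (fun n : ℕ => (n : ℝ) / ((n : ℝ) + 1)) atTop (𝓝 1) :=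
        tendsto_natCast_div_add_atTop 1
      have e4 := e2.add (hlim.mul e3)
      simp only [mul_one, zero_add] at e4
      refine e4.congr' ?_
      filter_upwards [eventually_gt_atTop 0] with n hn
      have hn' : (0:ℝ) < n := by exact_mod_cast hn
      field_simp
    have e5 := (tendsto_order.1 e1).1 b hb
    filter_upwards [e5] with n hn
    refine lt_of_lt_of_le hn ?_
    push_cast
    have hPn : 0 < P n := lt_of_lt_of_le one_pos (hP n)
    rw [← Real.log_mul hc1.ne' hPn.ne']
    gcongr
    exact h1 n
  · intro b hb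
    -- upper bound
    set ε := (b - h) / 2 with hε
    have hε0 : 0 < ε := by rw [hε]; linarith
    obtain ⟨M, hM⟩ := eventually_atTop.1 ((tendsto_order.1 hlim).2 (h + ε) (by linarith))
    have hM' : ∀ m, M + 1 ≤ m → P m ≤ Real.exp ((h + ε) * m) := by
      intro m hm
      have hm0 : (0:ℝ) < m := by
        have : 0 < m := by omega
        exact_mod_cast this
      have := hM m (by omega)
      rw [div_lt_iff₀ hm0] at this
      rw [← Real.exp_log (lt_of_lt_of_le one_pos (hP m))]
      exact Real.exp_le_exp.2 this.le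
    obtain ⟨C, hC1, hC⟩ : ∃ C : ℝ, 1 ≤ C ∧ ∀ m, P m ≤ C * Real.exp ((h + ε) * m) := by
      refine ⟨1 + ∑ m ∈ Finset.range (M+1), P m, ?_, ?_⟩
      · have : 0 ≤ ∑ m ∈ Finset.range (M+1), P m :=
          Finset.sum_nonneg fun m _ => le_trans zero_le_one (hP m)
        linarith
      · intro m
        have hexp : 1 ≤ Real.exp ((h + ε) * m) :=
          Real.one_le_exp (mul_nonneg (by linarith) (Nat.cast_nonneg m))
        have hs : 0 ≤ ∑ m ∈ Finset.range (M+1), P m :=
          Finset.sum_nonneg fun m _ => le_trans zero_le_one (hP m)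
        by_cases hm : M + 1 ≤ m
        · have := hM' m hm
          nlinarith
        · have h3 : P m ≤ ∑ m ∈ Finset.range (M+1), P m :=
            Finset.single_le_sum (f := P) (fun m _ => le_trans zero_le_one (hP m))
              (Finset.mem_range.2 (by omega))
          nlinarith
    set D := c2 + c3 * C + 1 with hD
    have hD0 : 0 < D := by positivity
    have key : ∀ n : ℕ, a (n+1) ≤ D * (((n:ℝ)+1) * Real.exp ((h + ε) * ((n:ℝ)+1))) := by
      intro n
      have hs : ∑ m ∈ Finset.range (n+1), P m ≤ ((n:ℝ)+1) * (C * Real.exp ((h+ε) * ((n:ℝ)+1))) := by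
        calc ∑ m ∈ Finset.range (n+1), P m
            ≤ ∑ m ∈ Finset.range (n+1), C * Real.exp ((h+ε) * ((n:ℝ)+1)) := by
              refine Finset.sum_le_sum fun m hm => (hC m).trans ?_
              have hm' : (m:ℝ) ≤ (n:ℝ) + 1 := by
                have := Finset.mem_range.1 hm
                have h4 : m ≤ n + 1 := by omega
                exact_mod_cast h4
              gcongr
          _ = ((n:ℝ)+1) * (C * Real.exp ((h+ε) * ((n:ℝ)+1))) := by simp
      have hE : 1 ≤ ((n:ℝ)+1) * Real.exp ((h + ε) * ((n:ℝ)+1)) := by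
        have h5 : (1:ℝ) ≤ (n:ℝ)+1 := by
          have : (0:ℝ) ≤ n := Nat.cast_nonneg n
          linarith
        have h6 : 1 ≤ Real.exp ((h + ε) * ((n:ℝ)+1)) :=
          Real.one_le_exp (by positivity)
        nlinarith
      calc a (n+1) ≤ c2 + c3 * ∑ m ∈ Finset.range (n+1), P m := h2 (n+1)
        _ ≤ c2 + c3 * (((n:ℝ)+1) * (C * Real.exp ((h+ε) * ((n:ℝ)+1)))) := by gcongr
        _ = c2 * 1 + c3 * C * (((n:ℝ)+1) * Real.exp ((h + ε) * ((n:ℝ)+1))) := by ring
        _ ≤ c2 * (((n:ℝ)+1) * Real.exp ((h + ε) * ((n:ℝ)+1))) +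
            c3 * C * (((n:ℝ)+1) * Real.exp ((h + ε) * ((n:ℝ)+1))) := by gcongr
        _ ≤ D * (((n:ℝ)+1) * Real.exp ((h + ε) * ((n:ℝ)+1))) := by
            rw [hD]
            nlinarith
    have e1 : Tendsto (fun n : ℕ => Real.log D / ((n:ℝ)+1) + Real.log ((n:ℝ)+1) / ((n:ℝ)+1) + (h + ε))
        atTop (𝓝 (h + ε)) := by
      have e2 : Tendsto (fun n : ℕ => Real.log D / ((n : ℝ) + 1)) atTop (𝓝 0) :=
        ((tendsto_const_div_atTop_nhds_zero_nat (Real.log D)).comp (tendsto_add_atTop_nat 1)).congr
          (fun n => by simp)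
      have e3 : Tendsto (fun n : ℕ => Real.log ((n:ℝ)+1) / ((n:ℝ)+1)) atTop (𝓝 0) := by
        have := (Real.isLittleO_log_id_atTop).tendsto_div_nhds_zero
        have h7 : Tendsto (fun n : ℕ => ((n:ℝ)+1)) atTop atTop :=
          tendsto_natCast_atTop_atTop.atTop_add tendsto_const_nhds
        exact this.comp h7
      have := (e2.add e3).add_const (h + ε)
      simpa using this
    have e5 := (tendsto_order.1 e1).2 b (by rw [hε]; linarith)
    filter_upwards [e5] with n hn
    refine lt_of_le_of_lt ?_ hn
    push_cast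
    have hn1 : (0:ℝ) < (n:ℝ) + 1 := by positivity
    have h8 : Real.log (a (n+1)) ≤ Real.log D + (Real.log ((n:ℝ)+1) + (h+ε) * ((n:ℝ)+1)) := by
      have := Real.log_le_log (hapos n) (key n)
      rw [Real.log_mul hD0.ne' (by positivity), Real.log_mul hn1.ne' (by positivity),
        Real.log_exp] at this
      exact this
    rw [div_le_iff₀ hn1]
    have : (Real.log D / ((n:ℝ)+1) + Real.log ((n:ℝ)+1) / ((n:ℝ)+1) + (h + ε)) * ((n:ℝ)+1) =
        Real.log D + (Real.log ((n:ℝ)+1) + (h+ε) * ((n:ℝ)+1)) := by
      field_simp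
      ring
    rw [this]
    exact h8

/-- The tree-shift of the relation `R` has entropy equal to the growth rate of the number of
`R`-paths. -/
lemma entropy_of_rel {d : ℕ} (R : Fin d → Fin d → Prop) {h : ℝ}
    (hP : ∀ m, 1 ≤ ∑ b, (chains R m b).card)
    (hlim : Tendsto (fun m : ℕ => Real.log ((∑ b, (chains R m b).card : ℕ) : ℝ) / m) atTop (𝓝 h)) :
    (∀ n, 1 ≤ n → 1 < (blocks (treeShift (forb R)) n).ncard) ∧
    Tendsto (fun n : ℕ => Real.log (Real.log ((blocks (treeShift (forb R)) n).ncard : ℝ)) / n)
      atTop (𝓝 h) := by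
  constructor
  · intro n hn
    obtain ⟨m, rfl⟩ : ∃ m, n = m + 1 := ⟨n - 1, by omega⟩
    have : ∃ b, (chains R m b).card ≠ 0 := by
      by_contra hcon
      push Not at hcon
      have := hP m
      simp [hcon] at this
    obtain ⟨b, hb⟩ := this
    calc 1 < 2 ^ (chains R m b).card := Nat.one_lt_two_pow hb
      _ ≤ _ := two_pow_le R m b
  · have hd : 0 < d := by
      rcases Nat.eq_zero_or_pos d with h0 | h0
      · subst h0
        have := hP 0
        simp at this
      · exact h0
    have hd' : (0:ℝ) < d := by exact_mod_cast hd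
    have hl2 : 0 < Real.log 2 := Real.log_pos (by norm_num)
    refine analysis (P := fun m => ((∑ b, (chains R m b).card : ℕ) : ℝ)) (c1 := Real.log 2 / d)
      (c2 := Real.log (1 + d)) (c3 := Real.log 2) (fun m => by exact_mod_cast hP m) hlim
      (by positivity) (Real.log_nonneg (by linarith)) hl2.le ?_ ?_
    · intro n
      have h1 : ∀ b, ((chains R n b).card : ℝ) * Real.log 2 ≤
          Real.log ((blocks (treeShift (forb R)) (n+1)).ncard : ℝ) := by
        intro b
        have h2 : ((2 ^ (chains R n b).card : ℕ) : ℝ) ≤ ((blocks (treeShift (forb R)) (n+1)).ncard : ℝ) := by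
          exact_mod_cast two_pow_le R n b
        have h3 := Real.log_le_log (by positivity) h2
        push_cast at h3
        rw [Real.log_pow] at h3
        exact h3
      have h4 : (∑ b : Fin d, ((chains R n b).card : ℝ) * Real.log 2) ≤
          ∑ b : Fin d, Real.log ((blocks (treeShift (forb R)) (n+1)).ncard : ℝ) :=
        Finset.sum_le_sum fun b _ => h1 b
      rw [← Finset.sum_mul] at h4
      simp only [Finset.sum_const, Finset.card_univ, Fintype.card_fin, nsmul_eq_mul] at h4
      rw [div_mul_eq_mul_div, div_le_iff₀ hd']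
      push_cast
      linarith
    · intro n
      have h1 : ((blocks (treeShift (forb R)) n).ncard : ℝ) ≤
          (((1 + d) * 2 ^ (∑ m ∈ Finset.range n, ∑ b, (chains R m b).card) : ℕ) : ℝ) := by
        exact_mod_cast ncard_blocks_le R n
      rcases Nat.eq_zero_or_pos (blocks (treeShift (forb R)) n).ncard with h0 | h0
      · rw [h0]
        simp only [Nat.cast_zero, Real.log_zero]
        have : 0 ≤ Real.log (1 + (d:ℝ)) := Real.log_nonneg (by linarith)
        positivity
      · have h3 := Real.log_le_log (by exact_mod_cast h0) h1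
        push_cast at h3
        rw [Real.log_mul (by positivity) (by positivity), Real.log_pow] at h3
        push_cast at h3 ⊢
        linarith

end Pool.Agent.L0h85.TreeShift
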