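import Mathlib
import Pool.Agent.L0h85.TreeA

/-!
# Spectral radius and path counts; helper file for `MP_29bdbb_an`.
-/

open Filter Topology

namespace Pool.Agent.L0h85.TreeShift

section Spec

variable {α : Type} [Fintype α] [DecidableEq α]

/-- sum of the entries of `A^m` -/
noncomputable def P (A : Matrix α α ℝ) (m : ℕ) : ℝ := ∑ i, ∑ j, (A ^ m) i j

attribute [local instance] Matrix.linftyOpNormedRing Matrix.linftyOpNormedAlgebra

lemma mat_map_pow (A : Matrix α α ℝ) (m : ℕ) :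
    (A.map (algebraMap ℝ ℂ)) ^ m = (A ^ m).map (algebraMap ℝ ℂ) := by
  rw [← RingHom.mapMatrix_apply, ← RingHom.mapMatrix_apply, map_pow]

lemma norm_le_P (A : Matrix α α ℝ) (hA : ∀ m i j, 0 ≤ (A ^ m) i j) (m : ℕ) :
    ‖(A.map (algebraMap ℝ ℂ)) ^ m‖ ≤ P A m := by
  rw [mat_map_pow, Matrix.linfty_opNorm_def]
  have h0 : 0 ≤ P A m := Finset.sum_nonneg fun i _ => Finset.sum_nonneg fun j _ => hA m i j
  have : (Finset.univ.sup fun i => ∑ j, ‖((A ^ m).map (algebraMap ℝ ℂ)) i j‖₊) ≤ (P A m).toNNReal := by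
    refine Finset.sup_le fun i _ => ?_
    rw [← NNReal.coe_le_coe, Real.coe_toNNReal _ h0]
    push_cast
    have h1 : ∑ j, ‖((A ^ m).map (algebraMap ℝ ℂ)) i j‖ = ∑ j, (A ^ m) i j := by
      refine Finset.sum_congr rfl fun j _ => ?_
      simp [abs_of_nonneg (hA m i j)]
    rw [h1]
    exact Finset.single_le_sum (f := fun i => ∑ j, (A ^ m) i j)
      (fun i _ => Finset.sum_nonneg fun j _ => hA m i j) (Finset.mem_univ i)
  have h2 : ((Finset.univ.sup fun i => ∑ j, ‖((A ^ m).map (algebraMap ℝ ℂ)) i j‖₊ : NNReal) : ℝ) ≤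
      ((P A m).toNNReal : ℝ) := by exact_mod_cast this
  rwa [Real.coe_toNNReal _ h0] at h2

lemma P_le_norm (A : Matrix α α ℝ) (hA : ∀ m i j, 0 ≤ (A ^ m) i j) (m : ℕ) :
    P A m ≤ (Fintype.card α) * ‖(A.map (algebraMap ℝ ℂ)) ^ m‖ := by
  rw [mat_map_pow, Matrix.linfty_opNorm_def, P]
  have : ∀ i ∈ (Finset.univ : Finset α), ∑ j, (A ^ m) i j ≤
      ((Finset.univ.sup fun i => ∑ j, ‖((A ^ m).map (algebraMap ℝ ℂ)) i j‖₊ : NNReal) : ℝ) := by
    intro i _
    have h1 : ∑ j, ‖((A ^ m).map (algebraMap ℝ ℂ)) i j‖ = ∑ j, (A ^ m) i j := by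
      refine Finset.sum_congr rfl fun j _ => ?_
      simp [abs_of_nonneg (hA m i j)]
    rw [← h1]
    have h2 := Finset.le_sup (f := fun i => ∑ j, ‖((A ^ m).map (algebraMap ℝ ℂ)) i j‖₊)
      (Finset.mem_univ i)
    have h3 : ((∑ j, ‖((A ^ m).map (algebraMap ℝ ℂ)) i j‖₊ : NNReal) : ℝ) ≤
      ((Finset.univ.sup fun i => ∑ j, ‖((A ^ m).map (algebraMap ℝ ℂ)) i j‖₊ : NNReal) : ℝ) := by
      exact_mod_cast h2
    push_cast at h3
    exact_mod_cast h3
  calc ∑ i, ∑ j, (A ^ m) i j ≤ ∑ i : α, ((Finset.univ.sup fun i =>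
        ∑ j, ‖((A ^ m).map (algebraMap ℝ ℂ)) i j‖₊ : NNReal) : ℝ) := Finset.sum_le_sum this
    _ = _ := by simp

/-- growth rate of the sum of the entries of `A^m` is `log ρ(A)` -/
lemma growth_P [Nonempty α] (A : Matrix α α ℝ) (hA : ∀ m i j, 0 ≤ (A ^ m) i j) (hP : ∀ m, 1 ≤ P A m) :
    Tendsto (fun m : ℕ => Real.log (P A m) / m) atTop
      (𝓝 (Real.log (spectralRadius ℂ (A.map (algebraMap ℝ ℂ))).toReal)) := by
  set M := A.map (algebraMap ℝ ℂ) with hM
  have hfin : spectralRadius ℂ M ≠ ⊤ := by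
    refine ne_top_of_le_ne_top ?_ (spectrum.spectralRadius_le_nnnorm (𝕜 := ℂ) M)
    exact ENNReal.coe_ne_top
  have h1 := spectrum.pow_norm_pow_one_div_tendsto_nhds_spectralRadius M
  have h2 : Tendsto (fun n : ℕ => ‖M ^ n‖ ^ (1 / n : ℝ)) atTop (𝓝 (spectralRadius ℂ M).toReal) := by
    have := (ENNReal.tendsto_toReal hfin).comp h1
    refine this.congr fun n => ?_
    simp only [Function.comp]
    rw [ENNReal.toReal_ofReal (by positivity)]
  have hcard : (0:ℝ) < Fintype.card α := by exact_mod_cast Fintype.card_pos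
  have h3 : Tendsto (fun n : ℕ => (Fintype.card α : ℝ) ^ (1 / n : ℝ)) atTop (𝓝 1) := by
    have h4 : Tendsto (fun n : ℕ => (1 / n : ℝ)) atTop (𝓝 0) := tendsto_one_div_atTop_nhds_zero_nat
    have := (Real.continuousAt_const_rpow hcard.ne' (b := 0)).tendsto.comp h4
    rw [Real.rpow_zero] at this
    exact this
  have h5 : Tendsto (fun n : ℕ => (P A n) ^ (1 / n : ℝ)) atTop (𝓝 (spectralRadius ℂ M).toReal) := by
    have h8 := h3.mul h2
    rw [one_mul] at h8
    refine tendsto_of_tendsto_of_tendsto_of_le_of_le h2 h8 ?_ ?_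
    · intro n
      exact Real.rpow_le_rpow (norm_nonneg _) (norm_le_P A hA n) (by positivity)
    · intro n
      simp only
      rw [← Real.mul_rpow hcard.le (norm_nonneg _)]
      exact Real.rpow_le_rpow (zero_le_one.trans (hP n)) (P_le_norm A hA n) (by positivity)
  have h6 : 1 ≤ (spectralRadius ℂ M).toReal := by
    refine ge_of_tendsto' h5 fun n => ?_
    exact Real.one_le_rpow (hP n) (by positivity)
  have h7 := (Real.continuousAt_log (show (spectralRadius ℂ M).toReal ≠ 0 by linarith)).tendsto.comp h5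
  refine h7.congr fun n => ?_
  simp only [Function.comp]
  rw [Real.log_rpow (by linarith [hP n])]
  ring

end Spec

end Pool.Agent.L0h85.TreeShift
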