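import Mathlib
import Pool.Agent.L0h85.TreeB

/-!
# Matrix shifts, words, and the chain counts; helper file for `MP_29bdbb_an`.
-/

open Filter Topology

namespace Pool.Agent.L0h85.TreeShift

section Mat

variable {α : Type} [Fintype α] [DecidableEq α]

/-- The matrix shift `X_A`. -/
def matrixShift (A : Matrix α α ℝ) : Set (ℤ → α) := {x | ∀ i, A (x i) (x (i + 1)) = 1}

/-- The words of length `n` occurring in the points of `X`. -/
def words (X : Set (ℤ → α)) (n : ℕ) : Set (List α) :=
  {w | ∃ x ∈ X, ∃ s : ℤ, w = List.ofFn (fun i : Fin n => x (s + (i : ℕ)))}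

/-- the relation of a matrix -/
def Rel (A : Matrix α α ℝ) : α → α → Prop := fun i j => A i j = 1

lemma pow_nonneg' {A : Matrix α α ℝ} (hA : ∀ i j, A i j = 0 ∨ A i j = 1) (m : ℕ) :
    ∀ i j, 0 ≤ (A ^ m) i j := by
  induction m with
  | zero => intro i j; rw [pow_zero, Matrix.one_apply]; split_ifs <;> norm_num
  | succ m ih =>
    intro i j
    rw [pow_succ, Matrix.mul_apply]
    refine Finset.sum_nonneg fun l _ => mul_nonneg (ih i l) ?_
    rcases hA l j with h | h <;> rw [h] <;> norm_num

lemma card_chains_eq {A : Matrix α α ℝ} (hA : ∀ i j, A i j = 0 ∨ A i j = 1) (m : ℕ) :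
    ∀ i, ((chains (Rel A) m i).card : ℝ) = ∑ j, (A ^ m) i j := by
  classical
  induction m with
  | zero => intro i; simp [card_chains_zero, Matrix.one_apply]
  | succ m ih =>
    intro i
    rw [card_chains_succ, pow_succ']
    push_cast
    rw [Finset.sum_filter]
    have h1 : ∀ j, (if Rel A i j then ((chains (Rel A) m j).card : ℝ) else 0) =
        A i j * ∑ l, (A ^ m) j l := by
      intro j
      rw [ih j]
      unfold Rel
      rcases hA i j with h | h
      · rw [h]; simp
      · rw [h]; simp
    simp only [h1, Matrix.mul_apply, Finset.mul_sum]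
    rw [Finset.sum_comm]

lemma sum_chains_eq {A : Matrix α α ℝ} (hA : ∀ i j, A i j = 0 ∨ A i j = 1) (m : ℕ) :
    ((∑ i, (chains (Rel A) m i).card : ℕ) : ℝ) = P A m := by
  push_cast
  exact Finset.sum_congr rfl fun i _ => card_chains_eq hA m i

/-- the transported relation on a larger index set -/
def Tr {δ : Type} (f : α → δ) (A : Matrix α α ℝ) : δ → δ → Prop :=
  fun x y => ∃ i j, f i = x ∧ f j = y ∧ A i j = 1

lemma card_chains_tr {δ : Type} [Fintype δ] (f : α → δ) (hf : Function.Injective f)
    (A : Matrix α α ℝ) (m : ℕ) :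
    ∀ i, (chains (Tr f A) m (f i)).card = (chains (Rel A) m i).card := by
  classical
  induction m with
  | zero => intro i; rw [card_chains_zero, card_chains_zero]
  | succ m ih =>
    intro i
    rw [card_chains_succ, card_chains_succ]
    have h1 : Finset.univ.filter (fun y => Tr f A (f i) y) =
        (Finset.univ.filter (fun j => Rel A i j)).image f := by
      ext y
      simp only [Finset.mem_filter, Finset.mem_univ, true_and, Finset.mem_image]
      constructor
      · rintro ⟨i', j, hi, hj, h⟩
        rw [hf hi] at h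
        exact ⟨j, h, hj⟩
      · rintro ⟨j, h, hj⟩
        exact ⟨i, j, rfl, hj, h⟩
    rw [h1, Finset.sum_image (fun x _ y _ h => hf h)]
    exact Finset.sum_congr rfl fun j _ => ih j

lemma sum_chains_tr {δ : Type} [Fintype δ] (f : α → δ) (hf : Function.Injective f)
    (A : Matrix α α ℝ) (m : ℕ) :
    ∑ x, (chains (Tr f A) (m+1) x).card = ∑ i, (chains (Rel A) (m+1) i).card := by
  classical
  have h1 : ∑ i, (chains (Rel A) (m+1) i).card = ∑ x ∈ Finset.univ.image f,
      (chains (Tr f A) (m+1) x).card := by
    rw [Finset.sum_image (fun x _ y _ h => hf h)]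
    exact Finset.sum_congr rfl fun j _ => (card_chains_tr f hf A (m+1) j).symm
  rw [h1]
  symm
  refine Finset.sum_subset (Finset.subset_univ _) fun x _ hx => ?_
  rw [card_chains_succ]
  refine Finset.sum_eq_zero fun y hy => ?_
  exfalso
  obtain ⟨i, j, hi, -, -⟩ := (Finset.mem_filter.1 hy).2
  exact hx (Finset.mem_image.2 ⟨i, Finset.mem_univ i, hi⟩)

lemma isChain_ofFn_shift {A : Matrix α α ℝ} {x : ℤ → α} (hx : x ∈ matrixShift A) (n : ℕ) (s : ℤ) :
    List.IsChain (Rel A) (List.ofFn (fun i : Fin n => x (s + (i : ℕ)))) := by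
  rw [List.isChain_iff_getElem]
  intro i hi
  simp only [List.getElem_ofFn]
  have := hx (s + i)
  unfold Rel
  push_cast
  rw [← add_assoc]
  exact this

lemma one_le_P {A : Matrix α α ℝ} (hA : ∀ i j, A i j = 0 ∨ A i j = 1)
    (hX : (matrixShift A).Nonempty) (m : ℕ) : 1 ≤ ∑ i, (chains (Rel A) m i).card := by
  obtain ⟨x, hx⟩ := hX
  have h1 : List.ofFn (fun i : Fin m => x (1 + (i : ℕ))) ∈ chains (Rel A) m (x 0) := by
    rw [mem_chains]
    refine ⟨by simp, ?_⟩
    have := isChain_ofFn_shift hx (m+1) 0
    rw [List.ofFn_succ] at this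
    simpa [add_comm] using this
  calc 1 ≤ (chains (Rel A) m (x 0)).card := Finset.card_pos.2 ⟨_, h1⟩
    _ ≤ _ := Finset.single_le_sum (f := fun i => (chains (Rel A) m i).card)
        (fun _ _ => Nat.zero_le _) (Finset.mem_univ _)

/-- The number of words of length `n+1` is at most the number of paths. -/
lemma words_le (A : Matrix α α ℝ) (n : ℕ) :
    (words (matrixShift A) (n+1)).ncard ≤ ∑ i, (chains (Rel A) n i).card := by
  classical
  have hsub : words (matrixShift A) (n+1) ⊆
      ↑(Finset.univ.biUnion fun i : α => (chains (Rel A) n i).image (List.cons i)) := by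
    rintro w ⟨x, hx, s, rfl⟩
    simp only [Finset.coe_biUnion, Finset.mem_coe, Finset.mem_univ, Set.iUnion_true,
      Finset.coe_image, Set.mem_iUnion]
    refine ⟨x s, List.ofFn (fun i : Fin n => x (s + 1 + (i : ℕ))), ?_, ?_⟩
    · rw [Finset.mem_coe, mem_chains]
      refine ⟨by simp, ?_⟩
      have := isChain_ofFn_shift hx (n+1) s
      rw [List.ofFn_succ] at this
      simpa [add_comm, add_assoc, add_left_comm] using this
    · rw [List.ofFn_succ]
      simp [add_comm, add_assoc, add_left_comm]
  calc (words (matrixShift A) (n+1)).ncard ≤ (Finset.univ.biUnion fun i : α =>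
        (chains (Rel A) n i).image (List.cons i)).card := by
        rw [← Set.ncard_coe_finset]
        exact Set.ncard_le_ncard hsub (Finset.finite_toSet _)
    _ ≤ ∑ i, ((chains (Rel A) n i).image (List.cons i)).card := Finset.card_biUnion_le
    _ ≤ _ := Finset.sum_le_sum fun i _ => Finset.card_image_le

end Mat

end Pool.Agent.L0h85.TreeShift
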