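import Mathlib
import Pool.Agent.L0h85.TreeC

/-!
# Words and paths have the same growth; helper file for `MP_29bdbb_an`.
-/

open Filter Topology

namespace Pool.Agent.L0h85.TreeShift

section Ext

variable {α : Type} (R : α → α → Prop)

/-- vertices at the end of a path with `m` steps -/
def SS : ℕ → Set α
  | 0 => Set.univ
  | (m+1) => {v | ∃ u ∈ SS m, R u v}

lemma SS_succ_subset (m : ℕ) : SS R (m+1) ⊆ SS R m := by
  induction m with
  | zero => intro v _; trivial
  | succ m ih =>
    rintro v ⟨u, hu, h⟩
    exact ⟨u, ih hu, h⟩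

lemma SS_stab [Finite α] : ∃ M, SS R M = SS R (M+1) := by
  classical
  by_contra hcon
  push Not at hcon
  have hlt : ∀ m, (SS R (m+1)).ncard < (SS R m).ncard := by
    intro m
    refine Set.ncard_lt_ncard ?_ (Set.toFinite _)
    exact lt_of_le_of_ne (SS_succ_subset R m) (fun h => hcon m h.symm)
  have hb : ∀ m, (SS R m).ncard + m ≤ (SS R 0).ncard := by
    intro m
    induction m with
    | zero => simp
    | succ m ih => have := hlt m; omega
  have := hb ((SS R 0).ncard + 1)
  omega

lemma mem_SS_of_chain (L : List α) (v : α) (h : List.IsChain R (L ++ [v])) :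
    v ∈ SS R L.length := by
  induction L using List.reverseRecOn generalizing v with
  | nil => trivial
  | append_singleton L u ih =>
    rw [List.isChain_append] at h
    obtain ⟨h1, -, h3⟩ := h
    have h4 : R u v := h3 u (by simp) v (by simp)
    have := ih u h1
    simp only [List.length_append, List.length_cons, List.length_nil]
    exact ⟨u, this, h4⟩

lemma exists_seq {E : Set α} (hE : ∀ v ∈ E, ∃ u ∈ E, R u v) {v : α} (hv : v ∈ E) :
    ∃ l : ℕ → α, l 0 = v ∧ ∀ j, R (l (j+1)) (l j) := by
  choose p hp using fun v : E => hE v.1 v.2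
  let q : E → E := fun v => ⟨p v, (hp v).1⟩
  refine ⟨fun j => (q^[j] ⟨v, hv⟩).1, rfl, fun j => ?_⟩
  simp only [Function.iterate_succ_apply']
  exact (hp _).2

lemma exists_right {E : Set α} (hE : ∀ v ∈ E, ∃ u ∈ E, R v u) (L : List α) :
    ∀ (a : α), List.IsChain R (a :: L) → (a :: L).getLast (by simp) ∈ E →
    ∃ r : ℕ → α, r 0 = a ∧ (∀ j, R (r j) (r (j+1))) ∧
      a :: L = List.ofFn (fun i : Fin (L.length + 1) => r i) := by
  induction L with
  | nil =>
    intro a _ h2
    obtain ⟨l, hl0, hl⟩ := exists_seq (fun x y => R y x) hE (v := a) (by simpa using h2)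
    refine ⟨l, hl0, hl, ?_⟩
    simp [hl0]
  | cons b L ih =>
    intro a h1 h2
    rw [List.isChain_cons_cons] at h1
    obtain ⟨r, hr0, hr, hL⟩ := ih b h1.2 (by simpa [List.getLast_cons] using h2)
    refine ⟨fun j => Nat.casesOn j a r, rfl, ?_, ?_⟩
    · intro j
      cases j with
      | zero => simp only; rw [hr0]; exact h1.1
      | succ j => exact hr j
    · conv_lhs => rw [hL]
      change _ = List.ofFn (fun i : Fin (L.length + 1 + 1) => (fun j => Nat.casesOn j a r : ℕ → α) i)
      rw [List.ofFn_succ]
      simp

end Ext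

section Mat

variable {α : Type} [Fintype α] [DecidableEq α]

lemma mem_words (A : Matrix α α ℝ) {E E' : Set α} (hE : ∀ v ∈ E, ∃ u ∈ E, Rel A u v)
    (hE' : ∀ v ∈ E', ∃ u ∈ E', Rel A v u) (a : α) (L : List α) (h : List.IsChain (Rel A) (a :: L))
    (h1 : a ∈ E) (h2 : (a :: L).getLast (by simp) ∈ E') :
    a :: L ∈ words (matrixShift A) (L.length + 1) := by
  obtain ⟨l, hl0, hl⟩ := exists_seq (Rel A) hE h1
  obtain ⟨r, hr0, hr, hL⟩ := exists_right (Rel A) hE' L a h h2
  refine ⟨fun i => match i with | Int.ofNat n => r n | Int.negSucc n => l (n+1), ?_, 0, ?_⟩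
  · intro i
    match i with
    | Int.ofNat n => exact hr n
    | Int.negSucc 0 =>
      have : (Int.negSucc 0) + 1 = Int.ofNat 0 := rfl
      rw [this]
      simp only
      rw [hr0, ← hl0]
      exact hl 0
    | Int.negSucc (n+1) =>
      have : (Int.negSucc (n+1)) + 1 = Int.negSucc n := rfl
      rw [this]
      exact hl (n+1)
  · rw [hL]
    congr 1
    funext i
    have : (0 : ℤ) + ((i : ℕ) : ℤ) = Int.ofNat i := by simp
    rw [this]

/-- The number of paths is at most a constant times the number of words (shorter by a constant). -/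
lemma exists_paths_le (A : Matrix α α ℝ) : ∃ M K : ℕ, ∀ n,
    ∑ i, (chains (Rel A) (n + M) i).card ≤ K * (words (matrixShift A) (n+1)).ncard := by
  classical
  obtain ⟨M1, hM1⟩ := SS_stab (Rel A)
  obtain ⟨M2, hM2⟩ := SS_stab (fun x y => Rel A y x)
  have hE : ∀ v ∈ SS (Rel A) M1, ∃ u ∈ SS (Rel A) M1, Rel A u v := by
    intro v hv
    rw [hM1] at hv
    exact hv
  have hE' : ∀ v ∈ SS (fun x y => Rel A y x) M2, ∃ u ∈ SS (fun x y => Rel A y x) M2, Rel A v u := by
    intro v hv
    rw [hM2] at hv
    exact hv
  let Q : ℕ → Set (List α) := fun m => {L | L.length = m}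
  have hQ : ∀ m, (Q m).Finite := fun m => List.finite_length_eq α m
  refine ⟨M1 + M2, (Q M1).ncard * (Q M2).ncard, fun n => ?_⟩
  -- the set of all paths
  let T : Finset (List α) :=
    Finset.univ.biUnion fun i : α => (chains (Rel A) (n + (M1 + M2)) i).image (List.cons i)
  have hT : T.card = ∑ i, (chains (Rel A) (n + (M1 + M2)) i).card := by
    rw [Finset.card_biUnion]
    · exact Finset.sum_congr rfl fun i _ => Finset.card_image_of_injective _ List.cons_injective
    · intro x _ y _ hxy
      rw [Function.onFun, Finset.disjoint_left]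
      intro w hw hw'
      simp only [Finset.mem_image] at hw hw'
      obtain ⟨w1, _, rfl⟩ := hw
      obtain ⟨w2, _, h⟩ := hw'
      exact hxy (List.cons.inj h).1.symm
  have hTm : ∀ L ∈ T, L.length = n + (M1 + M2) + 1 ∧ List.IsChain (Rel A) L := by
    intro L hL
    simp only [T, Finset.mem_biUnion, Finset.mem_univ, true_and, Finset.mem_image] at hL
    obtain ⟨i, w, hw, rfl⟩ := hL
    rw [mem_chains] at hw
    exact ⟨by simp [hw.1], hw.2⟩
  have hWf : (words (matrixShift A) (n+1)).Finite := by
    refine (hQ (n+1)).subset ?_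
    rintro w ⟨x, _, s, rfl⟩
    simp [Q]
  have hprod : ((Q M1 ×ˢ Q M2) ×ˢ words (matrixShift A) (n+1)).Finite :=
    ((hQ M1).prod (hQ M2)).prod hWf
  rw [← hT, ← Set.ncard_coe_finset, ← Set.ncard_prod, ← Set.ncard_prod]
  refine Set.ncard_le_ncard_of_injOn
    (fun L => ((L.take M1, L.drop (M1 + (n+1))), (L.drop M1).take (n+1))) ?_ ?_ hprod
  · intro L hL
    obtain ⟨hl, hc⟩ := hTm L (by simpa using hL)
    refine ⟨⟨?_, ?_⟩, ?_⟩
    · simp only [Q, Set.mem_ofPred_eq, List.length_take]; omega
    · simp only [Q, Set.mem_ofPred_eq, List.length_drop]; omega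
    · -- the middle part
      simp only
      have hlen : ((L.drop M1).take (n+1)).length = n + 1 := by
        simp only [List.length_take, List.length_drop]; omega
      rcases hmid : (L.drop M1).take (n+1) with _ | ⟨a, L2⟩
      · rw [hmid] at hlen; simp at hlen
      · have hL2 : L2.length = n := by rw [hmid] at hlen; simpa using hlen
        have hdec : L = L.take M1 ++ ((a :: L2) ++ L.drop (M1 + (n+1))) := by
          rw [← hmid, ← List.drop_drop, List.take_append_drop, List.take_append_drop]
        have hl1 : (L.take M1).length = M1 := by simp only [List.length_take]; omega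
        have hl3 : (L.drop (M1 + (n+1))).length = M2 := by simp only [List.length_drop]; omega
        rw [hdec] at hc
        have hc1 : List.IsChain (Rel A) (L.take M1 ++ [a]) := by
          have : L.take M1 ++ ((a :: L2) ++ L.drop (M1 + (n+1))) =
            (L.take M1 ++ [a]) ++ (L2 ++ L.drop (M1 + (n+1))) := by simp
          rw [this] at hc
          exact hc.left_of_append
        have hc2 : List.IsChain (Rel A) (a :: L2) := (hc.right_of_append).left_of_append
        have hc3 : List.IsChain (Rel A)
            ([(a :: L2).getLast (by simp)] ++ L.drop (M1 + (n+1))) := by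
          have h5 := hc.right_of_append
          have h6 : (a :: L2) ++ L.drop (M1 + (n+1)) = (a :: L2).dropLast ++
            ([(a :: L2).getLast (by simp)] ++ L.drop (M1 + (n+1))) := by
            rw [← List.append_assoc, List.dropLast_append_getLast]
          rw [h6] at h5
          exact h5.right_of_append
        have hc4 : List.IsChain (fun x y => Rel A y x)
            ((L.drop (M1 + (n+1))).reverse ++ [(a :: L2).getLast (by simp)]) := by
          have h7 : (L.drop (M1 + (n+1))).reverse ++ [(a :: L2).getLast (by simp)] =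
            ([(a :: L2).getLast (by simp)] ++ L.drop (M1 + (n+1))).reverse := by simp
          rw [h7, List.isChain_reverse]
          exact hc3
        have hm1 := mem_SS_of_chain (Rel A) _ _ hc1
        have hm2 := mem_SS_of_chain (fun x y => Rel A y x) _ _ hc4
        rw [hl1] at hm1
        rw [List.length_reverse, hl3] at hm2
        have := mem_words A hE hE' a L2 hc2 hm1 hm2
        rw [hL2] at this
        exact this
  · intro L _ L' _ hLL
    simp only [Prod.mk.injEq] at hLL
    obtain ⟨⟨h1, h2⟩, h3⟩ := hLL
    have hdec : ∀ L : List α, L = L.take M1 ++ ((L.drop M1).take (n+1) ++ L.drop (M1 + (n+1))) := by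
      intro L
      rw [← List.drop_drop, List.take_append_drop, List.take_append_drop]
    rw [hdec L, hdec L', h1, h2, h3]

end Mat

end Pool.Agent.L0h85.TreeShift
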